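import Pool.Agent.W392.UB.Cat

/-!
CAT(0) spaces (comparison triangles in the Euclidean plane) satisfy the CN inequality.
-/

set_option autoImplicit false

namespace Pool.Agent.W392.UB

/-- Geodesic metric spaces: any two points `x, y` are joined by an isometrically embedded interval
of length `dist x y`. -/
def IsGeodesicSpace (X : Type*) [MetricSpace X] : Prop :=
  ∀ x y : X, ∃ γ : ℝ → X, γ 0 = x ∧ γ (dist x y) = y ∧
    ∀ s ∈ Set.Icc (0 : ℝ) (dist x y), ∀ t ∈ Set.Icc (0 : ℝ) (dist x y),
      dist (γ s) (γ t) = |s - t|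

/-- CAT(0) spaces: geodesic metric spaces such that for every geodesic triangle with vertices
`x, y, z`, every comparison triangle `x', y', z'` in the Euclidean plane, all points `p` on the side
from `x` to `y` and `q` on the side from `x` to `z`, and their comparison points `p'` and `q'` (the
points of the sides of the comparison triangle at the same distances from the ends), the distance
of `p` and `q` is at most the distance of `p'` and `q'`. (A point `p` lies on some geodesic from `x`
to `y` if and only if `dist x p + dist p y = dist x y`.) -/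
def IsCAT0 (X : Type*) [MetricSpace X] : Prop :=
  IsGeodesicSpace X ∧ ∀ (x y z p q : X) (x' y' z' p' q' : EuclideanSpace ℝ (Fin 2)),
    dist x' y' = dist x y → dist y' z' = dist y z → dist z' x' = dist z x →
    dist x p + dist p y = dist x y → dist x q + dist q z = dist x z →
    dist x' p' = dist x p → dist p' y' = dist p y →
    dist x' q' = dist x q → dist q' z' = dist q z →
    dist p q ≤ dist p' q'

theorem dist_pt (a b c d : ℝ) : dist (!₂[a, b] : EuclideanSpace ℝ (Fin 2)) !₂[c, d] =
    Real.sqrt ((a - c) ^ 2 + (b - d) ^ 2) := by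
  rw [EuclideanSpace.dist_eq]
  simp [Fin.sum_univ_two, Real.dist_eq, sq_abs]

theorem exists_tri (a b c : ℝ) (ha : 0 ≤ a) (hb : 0 ≤ b) (hc : 0 ≤ c) (h1 : a ≤ b + c)
    (h2 : b ≤ a + c) (h3 : c ≤ a + b) :
    ∃ x y z : EuclideanSpace ℝ (Fin 2), dist x y = a ∧ dist y z = b ∧ dist z x = c := by
  rcases ha.eq_or_lt with h0 | h0
  · subst h0
    have hbc : b = c := by linarith
    subst hbc
    refine ⟨!₂[0, 0], !₂[0, 0], !₂[b, 0], ?_, ?_, ?_⟩
    · simp
    · rw [dist_pt]
      rw [show (0 - b) ^ 2 + (0 - 0 : ℝ) ^ 2 = b ^ 2 by ring, Real.sqrt_sq hb]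
    · rw [dist_pt]
      rw [show (b - 0) ^ 2 + (0 - 0 : ℝ) ^ 2 = b ^ 2 by ring, Real.sqrt_sq hb]
  · set u := (a ^ 2 + c ^ 2 - b ^ 2) / (2 * a) with hu
    have hu2 : 2 * a * u = a ^ 2 + c ^ 2 - b ^ 2 := by
      rw [hu]
      field_simp
    have k1 : u ≤ c := by
      rw [hu, div_le_iff₀ (by positivity)]
      nlinarith
    have k2 : -c ≤ u := by
      rw [hu, le_div_iff₀ (by positivity)]
      nlinarith
    have k3 : 0 ≤ c ^ 2 - u ^ 2 := by nlinarith
    refine ⟨!₂[0, 0], !₂[a, 0], !₂[u, Real.sqrt (c ^ 2 - u ^ 2)], ?_, ?_, ?_⟩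
    · rw [dist_pt]
      rw [show (0 - a) ^ 2 + (0 - 0 : ℝ) ^ 2 = a ^ 2 by ring, Real.sqrt_sq ha]
    · rw [dist_pt]
      have e : (a - u) ^ 2 + (0 - Real.sqrt (c ^ 2 - u ^ 2)) ^ 2 = b ^ 2 := by
        have := Real.sq_sqrt k3
        nlinarith
      rw [e, Real.sqrt_sq hb]
    · rw [dist_pt]
      have e : (u - 0) ^ 2 + (Real.sqrt (c ^ 2 - u ^ 2) - 0) ^ 2 = c ^ 2 := by
        have := Real.sq_sqrt k3
        nlinarith
      rw [e, Real.sqrt_sq hc]

theorem IsCAT0.cn {X : Type*} [MetricSpace X] (h : IsCAT0 X) : CN X := by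
  intro x y
  obtain ⟨γ, h0, h1, h2⟩ := h.1 x y
  have hd : 0 ≤ dist x y := dist_nonneg
  have m1 : dist x (γ (dist x y / 2)) = dist x y / 2 := by
    have := h2 0 ⟨le_refl _, hd⟩ (dist x y / 2) ⟨by linarith, by linarith⟩
    rw [h0] at this
    rw [this, abs_sub_comm, sub_zero, abs_of_nonneg (by linarith)]
  have m2 : dist (γ (dist x y / 2)) y = dist x y / 2 := by
    have := h2 (dist x y / 2) ⟨by linarith, by linarith⟩ (dist x y) ⟨hd, le_refl _⟩
    rw [h1] at this
    rw [this, abs_sub_comm, abs_of_nonneg (by linarith)]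
    ring
  refine ⟨γ (dist x y / 2), fun z => ?_⟩
  generalize γ (dist x y / 2) = m at *
  obtain ⟨x', y', z', e1, e2, e3⟩ := exists_tri (dist x y) (dist y z) (dist z x) dist_nonneg
    dist_nonneg dist_nonneg
    (by have := dist_triangle x z y; rw [dist_comm x z, dist_comm z y] at this; linarith)
    (by have := dist_triangle y x z; rw [dist_comm y x, dist_comm x z] at this; linarith)
    (by have := dist_triangle z y x; rw [dist_comm z y, dist_comm y x] at this; linarith)
  have f1 : dist x' (midpoint ℝ x' y') = dist x m := by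
    rw [dist_left_midpoint, e1, m1, Real.norm_ofNat]
    ring
  have f2 : dist (midpoint ℝ x' y') y' = dist m y := by
    rw [dist_midpoint_right, e1, m2, Real.norm_ofNat]
    ring
  have e3' : dist x' z' = dist x z := by rw [dist_comm, e3, dist_comm]
  have key := h.2 x y z m z x' y' z' (midpoint ℝ x' y') z' e1 e2 e3 (by rw [m1, m2]; ring)
    (by rw [dist_self, add_zero]) f1 f2 e3' (by rw [dist_self, dist_self])
  have ap := EuclideanGeometry.dist_sq_add_dist_sq_eq_two_mul_dist_midpoint_sq_add_half_dist_sq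
    z' x' y'
  rw [e3, e1, dist_comm z' y', e2] at ap
  rw [dist_comm m z, dist_comm _ z'] at key
  have k2 : dist z m ^ 2 ≤ dist z' (midpoint ℝ x' y') ^ 2 := pow_le_pow_left₀ dist_nonneg key 2
  rw [dist_comm z y]
  nlinarith

end Pool.Agent.W392.UB
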