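import Pool.Agent.W392.UB.Sq

/-!
The Cayley graph of `HH` contains no 3-cube.
-/

set_option autoImplicit false

namespace Pool.Agent.W392.UB

open Pool.Agent.W387 Pool.Agent.W387.SqSys

theorem sq_of_diamond {A : Type} {S : SqSys A} {u v : S.Grp} {a a' b b' : A} (huv : u ≠ v)
    (ha : v = S.gn a' * (S.gn a * u)) (hb : v = S.gn b' * (S.gn b * u))
    (hxy : S.gn a * u ≠ S.gn b * u) : S.sq (S.inv a) (S.inv b) = some (S.inv a', S.inv b') := by
  have ua : dd u (S.gn a * u) = 1 := by
    unfold dd
    rw [mul_inv_cancel_right, len_gn]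
  have huv' : dd u v ≠ 0 := by
    intro h
    have := len_eq_zero h
    rw [mul_inv_eq_one] at this
    exact huv this.symm
  have h2 : dd u v = 2 := by
    have h5 := dd_gn_mul u (S.gn a * u) a'
    rw [← ha, ua] at h5
    omega
  have red2 : ∀ a a' : A, v = S.gn a' * (S.gn a * u) → S.Red [a', a] := by
    intro a a' h
    apply red_of_len
    have e : evL (S := S) [a', a] = v * u⁻¹ := by
      rw [h]
      simp [mul_assoc]
    rw [e]
    exact h2
  have hE : S.E [a', a] [b', b] := by
    apply E_of_evL_eq (red2 _ _ ha) (red2 _ _ hb)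
    simp only [evL_cons, evL_nil, mul_one]
    have := ha.symm.trans hb
    rw [← mul_assoc, ← mul_assoc] at this
    exact mul_right_cancel this
  rcases key _ _ _ _ _ rfl hE with ⟨k1, _⟩ | ⟨p, e, f, k1, k2, k3⟩
  · exfalso
    subst k1
    exact hxy (mul_left_cancel (ha.symm.trans hb))
  · have l1 := E.length k2
    simp only [List.length_cons, List.length_nil] at l1
    have l2 : p = [] := List.eq_nil_of_length_eq_zero (by omega)
    subst l2
    have h3 : S.sq a' b' = some (a, b) := by rw [k1, E_single k2, E_single k3]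
    exact backs h3

theorem no_cube (f : (Fin 3 → Bool) → Dt.sys.Vx) (hf : Function.Injective f)
    (h : ∀ u v : Fin 3 → Bool, (∃! i, u i ≠ v i) → Dt.sys.Cay.Adj (f u) (f v)) : False := by
  have ad : ∀ u v : Fin 3 → Bool, (∃! i, u i ≠ v i) → ∃ x, (f v).g = Dt.sys.gn x * (f u).g :=
    fun u v hh => h u v hh
  have ne : ∀ u v : Fin 3 → Bool, u ≠ v → (f u).g ≠ (f v).g :=
    fun u v hh hh' => hh (hf (Vx.ext hh'))
  have tri : ∀ x y : Dt, ∀ p q r s : Fin 3 → Bool, p ≠ s → q ≠ r →
      (f q).g = Dt.sys.gn x * (f p).g → (f r).g = Dt.sys.gn y * (f p).g →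
      (∃! i, q i ≠ s i) → (∃! i, r i ≠ s i) →
      ∃ c, Dt.sq (Dt.inv x) (Dt.inv y) = some c := by
    intro x y p q r s h1 h2 hx hy h3 h4
    obtain ⟨x', hx'⟩ := ad q s h3
    obtain ⟨y', hy'⟩ := ad r s h4
    have h5 := sq_of_diamond (S := Dt.sys) (u := (f p).g) (v := (f s).g) (a := x) (b := y)
      (a' := x') (b' := y') (ne _ _ h1) (by rw [← hx]; exact hx') (by rw [← hy]; exact hy')
      (by rw [← hx, ← hy]; exact ne _ _ h2)
    exact ⟨_, h5⟩
  obtain ⟨x, hx⟩ := ad ![false, false, false] ![true, false, false] (by unfold ExistsUnique; decide)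
  obtain ⟨y, hy⟩ := ad ![false, false, false] ![false, true, false] (by unfold ExistsUnique; decide)
  obtain ⟨z, hz⟩ := ad ![false, false, false] ![false, false, true] (by unfold ExistsUnique; decide)
  obtain ⟨c1, h1⟩ := tri x y ![false, false, false] ![true, false, false] ![false, true, false]
    ![true, true, false] (by decide) (by decide) hx hy
    (by unfold ExistsUnique; decide) (by unfold ExistsUnique; decide)
  obtain ⟨c2, h2⟩ := tri y z ![false, false, false] ![false, true, false] ![false, false, true]
    ![false, true, true] (by decide) (by decide) hy hz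
    (by unfold ExistsUnique; decide) (by unfold ExistsUnique; decide)
  obtain ⟨c3, h3⟩ := tri x z ![false, false, false] ![true, false, false] ![false, false, true]
    ![true, false, true] (by decide) (by decide) hx hz
    (by unfold ExistsUnique; decide) (by unfold ExistsUnique; decide)
  exact Dt.no_tri h1 h2 h3

end Pool.Agent.W392.UB
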