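import Pool.Agent.W392.UB.Sq

/-!
Homomorphisms out of the group of the square complex, and its generation by four elements.
-/

set_option autoImplicit false

namespace Pool.Agent.W392.UB

open Pool.Agent.W387 Pool.Agent.W387.SqSys

namespace Dt

theorem forms {K : Type*} [Group K] (f : Dt → K) (hi : ∀ x, f (inv x) = (f x)⁻¹) {x y p q : Dt}
    (h : f x * f p = f y * f q) :
    (f (inv x) * f y = f p * f (inv q)) ∧ (f (inv y) * f x = f q * f (inv p)) ∧
      (f (inv p) * f (inv x) = f (inv q) * f (inv y)) := by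
  simp only [hi]
  refine ⟨?_, ?_, ?_⟩
  · rw [inv_mul_eq_iff_eq_mul, ← mul_assoc, h, mul_inv_cancel_right]
  · rw [inv_mul_eq_iff_eq_mul, ← mul_assoc, ← h, mul_inv_cancel_right]
  · rw [← mul_inv_rev, ← mul_inv_rev, h]

theorem sqrel {K : Type*} [Group K] (f : Dt → K) (hi : ∀ x, f (inv x) = (f x)⁻¹)
    (r1 : f t * f a = f a * f t) (r2 : f t * f b = f b * f t) (r3 : f c0 * f a = f t * f c1)
    (r4 : f c1 * f b = f t * f c2) (r5 : f c2 * f ai = f t * f c3)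
    (r6 : f c3 * f bi = f t * f c0) :
    ∀ x y p q, sq x y = some (p, q) → f x * f p = f y * f q := by
  obtain ⟨a1, a2, a3⟩ := forms f hi r1
  obtain ⟨b1, b2, b3⟩ := forms f hi r2
  obtain ⟨d1, d2, d3⟩ := forms f hi r3
  obtain ⟨e1, e2, e3⟩ := forms f hi r4
  obtain ⟨g1, g2, g3⟩ := forms f hi r5
  obtain ⟨h1, h2, h3⟩ := forms f hi r6
  simp only [inv] at a1 a2 a3 b1 b2 b3 d1 d2 d3 e1 e2 e3 g1 g2 g3 h1 h2 h3
  intro x y p q h
  cases x <;> cases y <;> simp only [sq, reduceCtorEq, Option.some.injEq, Prod.mk.injEq] at h <;>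
    obtain ⟨rfl, rfl⟩ := h <;>
    first
      | assumption
      | (symm; assumption)

/-- extension to the darts -/
def ext {K : Type*} [Group K] (A B T C : K) : Dt → K
  | a => A
  | ai => A⁻¹
  | b => B
  | bi => B⁻¹
  | t => T
  | ti => T⁻¹
  | c0 => C
  | c0i => C⁻¹
  | c1 => T⁻¹ * C * A
  | c1i => (T⁻¹ * C * A)⁻¹
  | c2 => T⁻¹ * (T⁻¹ * C * A) * B
  | c2i => (T⁻¹ * (T⁻¹ * C * A) * B)⁻¹
  | c3 => T⁻¹ * (T⁻¹ * (T⁻¹ * C * A) * B) * A⁻¹
  | c3i => (T⁻¹ * (T⁻¹ * (T⁻¹ * C * A) * B) * A⁻¹)⁻¹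

theorem ext_inv {K : Type*} [Group K] (A B T C : K) (x : Dt) :
    ext A B T C (inv x) = (ext A B T C x)⁻¹ := by
  cases x <;> simp only [ext, inv, _root_.inv_inv]

theorem ext_rel {K : Type*} [Group K] (A B T C : K) (h1 : T * A = A * T) (h2 : T * B = B * T)
    (h3 : C * (A * B * A⁻¹ * B⁻¹) = T ^ 4 * C) :
    ∀ x y p q, sq x y = some (p, q) →
      ext A B T C x * ext A B T C p = ext A B T C y * ext A B T C q := by
  apply sqrel (ext A B T C) (ext_inv A B T C)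
  · exact h1
  · exact h2
  · simp only [ext]
    group
  · simp only [ext]
    group
  · simp only [ext]
    group
  · simp only [ext]
    have e : T⁻¹ * (T⁻¹ * (T⁻¹ * C * A) * B) * A⁻¹ * B⁻¹ =
      T⁻¹ ^ 3 * (C * (A * B * A⁻¹ * B⁻¹)) := by group
    rw [e, h3]
    group

end Dt

/-- the group of the square complex -/
abbrev HH : Type := Dt.sys.Grp

namespace HH

/-- a generator -/
noncomputable def A : HH := Dt.sys.gn Dt.a
/-- a generator -/
noncomputable def B : HH := Dt.sys.gn Dt.b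
/-- a generator -/
noncomputable def T : HH := Dt.sys.gn Dt.t
/-- a generator -/
noncomputable def C : HH := Dt.sys.gn Dt.c0

theorem rel {x y p q : Dt} (h : Dt.sq x y = some (p, q)) :
    Dt.sys.gn x * Dt.sys.gn p = Dt.sys.gn y * Dt.sys.gn q := gn_sq (S := Dt.sys) h

theorem gn_inv' (x : Dt) : Dt.sys.gn (Dt.inv x) = (Dt.sys.gn x)⁻¹ := gn_inv (S := Dt.sys) x

theorem TA : T * A = A * T := rel (x := Dt.t) (y := Dt.a) (p := Dt.a) (q := Dt.t) rfl

theorem TB : T * B = B * T := rel (x := Dt.t) (y := Dt.b) (p := Dt.b) (q := Dt.t) rfl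

theorem gn_c1 : Dt.sys.gn Dt.c1 = T⁻¹ * C * A := by
  have h := rel (x := Dt.c0) (y := Dt.t) (p := Dt.a) (q := Dt.c1) rfl
  rw [mul_assoc, eq_inv_mul_iff_mul_eq]
  exact h.symm

theorem gn_c2 : Dt.sys.gn Dt.c2 = T⁻¹ * Dt.sys.gn Dt.c1 * B := by
  have h := rel (x := Dt.c1) (y := Dt.t) (p := Dt.b) (q := Dt.c2) rfl
  rw [mul_assoc, eq_inv_mul_iff_mul_eq]
  exact h.symm

theorem gn_c3 : Dt.sys.gn Dt.c3 = T⁻¹ * Dt.sys.gn Dt.c2 * A⁻¹ := by
  have h := rel (x := Dt.c2) (y := Dt.t) (p := Dt.ai) (q := Dt.c3) rfl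
  rw [mul_assoc, eq_inv_mul_iff_mul_eq]
  have h2 := gn_inv' Dt.a
  rw [A, ← h2]
  exact h.symm

theorem gn_c0 : C = T⁻¹ * Dt.sys.gn Dt.c3 * B⁻¹ := by
  have h := rel (x := Dt.c3) (y := Dt.t) (p := Dt.bi) (q := Dt.c0) rfl
  rw [mul_assoc, eq_inv_mul_iff_mul_eq]
  have h2 := gn_inv' Dt.b
  rw [B, ← h2]
  exact h.symm

theorem CW : C * (A * B * A⁻¹ * B⁻¹) = T ^ 4 * C := by
  have h := gn_c0
  rw [gn_c3, gn_c2, gn_c1] at h
  have e : T⁻¹ * (T⁻¹ * (T⁻¹ * (T⁻¹ * C * A) * B) * A⁻¹) * B⁻¹ =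
      (T ^ 4)⁻¹ * (C * (A * B * A⁻¹ * B⁻¹)) := by group
  rw [e, eq_inv_mul_iff_mul_eq] at h
  exact h.symm

/-- homomorphisms out of `HH` -/
noncomputable def hom {K : Type} [Group K] (a b t c : K) (h1 : t * a = a * t) (h2 : t * b = b * t)
    (h3 : c * (a * b * a⁻¹ * b⁻¹) = t ^ 4 * c) : HH →* K :=
  lift (S := Dt.sys) (Dt.ext a b t c) (Dt.ext_inv a b t c) (Dt.ext_rel a b t c h1 h2 h3)

section

variable {K : Type} [Group K] (a b t c : K) (h1 : t * a = a * t) (h2 : t * b = b * t)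
    (h3 : c * (a * b * a⁻¹ * b⁻¹) = t ^ 4 * c)

theorem hom_A : hom a b t c h1 h2 h3 A = a :=
  lift_gn (S := Dt.sys) (Dt.ext a b t c) _ _ Dt.a

theorem hom_B : hom a b t c h1 h2 h3 B = b :=
  lift_gn (S := Dt.sys) (Dt.ext a b t c) _ _ Dt.b

theorem hom_T : hom a b t c h1 h2 h3 T = t :=
  lift_gn (S := Dt.sys) (Dt.ext a b t c) _ _ Dt.t

theorem hom_C : hom a b t c h1 h2 h3 C = c :=
  lift_gn (S := Dt.sys) (Dt.ext a b t c) _ _ Dt.c0

end

theorem gen (N : Subgroup HH) (hA : A ∈ N) (hB : B ∈ N) (hT : T ∈ N) (hC : C ∈ N) (h : HH) :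
    h ∈ N := by
  have k1 : Dt.sys.gn Dt.c1 ∈ N := by
    rw [gn_c1]
    exact N.mul_mem (N.mul_mem (N.inv_mem hT) hC) hA
  have k2 : Dt.sys.gn Dt.c2 ∈ N := by
    rw [gn_c2]
    exact N.mul_mem (N.mul_mem (N.inv_mem hT) k1) hB
  have k3 : Dt.sys.gn Dt.c3 ∈ N := by
    rw [gn_c3]
    exact N.mul_mem (N.mul_mem (N.inv_mem hT) k2) (N.inv_mem hA)
  have key : ∀ x : Dt, Dt.sys.gn x ∈ N := by
    intro x
    cases x
    · exact hA
    · have := N.inv_mem hA
      rwa [A, ← gn_inv'] at this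
    · exact hB
    · have := N.inv_mem hB
      rwa [B, ← gn_inv'] at this
    · exact hT
    · have := N.inv_mem hT
      rwa [T, ← gn_inv'] at this
    · exact hC
    · have := N.inv_mem hC
      rwa [C, ← gn_inv'] at this
    · exact k1
    · have := N.inv_mem k1
      rwa [← gn_inv'] at this
    · exact k2
    · have := N.inv_mem k2
      rwa [← gn_inv'] at this
    · exact k3
    · have := N.inv_mem k3
      rwa [← gn_inv'] at this
  induction h using grp_induction with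
  | h1 => exact N.one_mem
  | h2 x g ih => exact N.mul_mem (key x) ih

end HH

end Pool.Agent.W392.UB
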