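import Pool.Agent.W392.UB.Turn
import Pool.Agent.W392.UB.Hom

/-!
An action of `HH` on `S × ℤ`, and a function `q : HH → ℤ` with `q (T h) = q h` and
`q ([A, B] h) = q h + 4` which changes by a bounded amount under `A` and `B`.
-/

set_option autoImplicit false

namespace Pool.Agent.W392.UB

/-- reduced words in three involutions -/
abbrev SS : Type := {l : List L3 // Rd l}

/-- the three involutions -/
def iv (s : L3) : Equiv.Perm SS where
  toFun := fun v => ⟨app s v.1, app_rd s v.2⟩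
  invFun := fun v => ⟨app s v.1, app_rd s v.2⟩
  left_inv := fun v => Subtype.ext (app_app s v.2)
  right_inv := fun v => Subtype.ext (app_app s v.2)

theorem iv_inv (s : L3) : (iv s)⁻¹ = iv s := rfl

theorem iv_mul (s : L3) : iv s * iv s = 1 := by
  nth_rewrite 1 [← iv_inv]
  exact inv_mul_cancel _

theorem iv_apply (s : L3) (v : SS) : (iv s v).1 = app s v.1 := rfl

/-- `x y` -/
def pA : Equiv.Perm SS := iv L3.x * iv L3.y
/-- `y z` -/
def pB : Equiv.Perm SS := iv L3.y * iv L3.z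
/-- the commutator -/
def pW : Equiv.Perm SS := pA * pB * pA⁻¹ * pB⁻¹

theorem pW_eq : pW = (iv L3.x * iv L3.z * iv L3.y) * (iv L3.x * iv L3.z * iv L3.y) := by
  unfold pW pA pB
  simp only [mul_inv_rev, iv_inv]
  have e : iv L3.x * iv L3.y * (iv L3.y * iv L3.z) * (iv L3.y * iv L3.x) * (iv L3.z * iv L3.y) =
    iv L3.x * (iv L3.y * iv L3.y) * iv L3.z * iv L3.y * iv L3.x * iv L3.z * iv L3.y := by
    simp only [mul_assoc]
  rw [e, iv_mul, mul_one]
  simp only [mul_assoc]

theorem tt_pW (v : SS) : tt (pW v).1 = tt v.1 + 6 := by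
  rw [pW_eq]
  show tt (app L3.x (app L3.z (app L3.y (app L3.x (app L3.z (app L3.y v.1)))))) = _
  have h : Rd (app L3.x (app L3.z (app L3.y v.1))) :=
    app_rd _ (app_rd _ (app_rd _ v.2))
  rw [tt_u h, tt_u v.2]
  ring

theorem tt_pW_inv (v : SS) : tt (pW⁻¹ v).1 = tt v.1 - 6 := by
  have h := tt_pW (pW⁻¹ v)
  have e : pW (pW⁻¹ v) = v := Equiv.apply_symm_apply pW v
  rw [e] at h
  omega

theorem tt_pW_zpow (j : ℤ) (v : SS) : tt ((pW ^ j) v).1 = tt v.1 + 6 * j := by
  induction j using Int.induction_on with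
  | zero => simp
  | succ i ih =>
    rw [add_comm, zpow_add, zpow_one, Equiv.Perm.mul_apply, tt_pW, ih]
    ring
  | pred i ih =>
    have e : (-(i : ℤ) - 1) = -1 + -(i : ℤ) := by ring
    rw [e, zpow_add, zpow_neg_one, Equiv.Perm.mul_apply, tt_pW_inv, ih]
    ring

/-- the coset index -/
def kk (v : SS) : ℤ := tt v.1 / 6

theorem kk_zpow (j : ℤ) (v : SS) : kk ((pW ^ j) v) = kk v + j := by
  unfold kk
  rw [tt_pW_zpow]
  omega

/-- the space -/
abbrev YY : Type := SS × ℤ

/-- the shear, as a function -/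
def shF (y : YY) : YY := ((pW ^ (y.2 / 4 - kk y.1)) y.1, 4 * kk y.1 + y.2 % 4)

theorem shF_shF (y : YY) : shF (shF y) = y := by
  obtain ⟨v, m⟩ := y
  unfold shF
  simp only [kk_zpow]
  have e1 : (4 * kk v + m % 4) / 4 = kk v := by omega
  have e2 : (4 * kk v + m % 4) % 4 = m % 4 := by omega
  rw [e1, e2, ← Equiv.Perm.mul_apply, ← zpow_add]
  have e3 : kk v - (kk v + (m / 4 - kk v)) + (m / 4 - kk v) = 0 := by ring
  rw [e3, zpow_zero]
  ext1
  · rfl
  · show 4 * (kk v + (m / 4 - kk v)) + m % 4 = m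
    omega

/-- the shear -/
def sh : Equiv.Perm YY where
  toFun := shF
  invFun := shF
  left_inv := shF_shF
  right_inv := shF_shF

/-- the action on the first factor -/
def fst : Equiv.Perm SS →* Equiv.Perm YY where
  toFun := fun g => g.prodCongr (Equiv.refl ℤ)
  map_one' := rfl
  map_mul' := fun _ _ => rfl

/-- translation of the second factor -/
def tr : Equiv.Perm YY := (Equiv.refl SS).prodCongr (Equiv.addRight 1)

theorem fst_apply (g : Equiv.Perm SS) (y : YY) : fst g y = (g y.1, y.2) := rfl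

theorem tr_apply (y : YY) : tr y = (y.1, y.2 + 1) := rfl

theorem tr_fst (g : Equiv.Perm SS) : tr * fst g = fst g * tr := rfl

theorem sh_rel : sh * fst pW = tr ^ 4 * sh := by
  have e : tr ^ 4 = tr * tr * tr * tr := by
    rw [pow_succ, pow_succ, pow_succ, pow_one]
  rw [e]
  ext1 y
  obtain ⟨v, m⟩ := y
  show shF (pW v, m) = ((shF (v, m)).1, (shF (v, m)).2 + 1 + 1 + 1 + 1)
  unfold shF
  have h : kk (pW v) = kk v + 1 := by
    have := kk_zpow 1 v
    rwa [zpow_one] at this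
  simp only [h]
  ext1
  · show (pW ^ (m / 4 - (kk v + 1))) (pW v) = (pW ^ (m / 4 - kk v)) v
    rw [← Equiv.Perm.mul_apply, ← zpow_add_one]
    congr 2
    ring
  · show 4 * (kk v + 1) + m % 4 = 4 * kk v + m % 4 + 1 + 1 + 1 + 1
    ring

theorem fst_pW : fst pA * fst pB * (fst pA)⁻¹ * (fst pB)⁻¹ = fst pW := by
  unfold pW
  simp only [map_mul, map_inv]

/-- the action of `HH` -/
noncomputable def act : HH →* Equiv.Perm YY :=
  HH.hom (fst pA) (fst pB) tr sh (tr_fst _) (tr_fst _) (by rw [fst_pW, sh_rel])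

theorem act_A : act HH.A = fst pA := HH.hom_A _ _ _ _ _ _ _
theorem act_B : act HH.B = fst pB := HH.hom_B _ _ _ _ _ _ _
theorem act_T : act HH.T = tr := HH.hom_T _ _ _ _ _ _ _

/-- the first coordinate of the orbit map -/
noncomputable def orb (h : HH) : SS := (act h (⟨[], trivial⟩, 0)).1

theorem orb_T (h : HH) : orb (HH.T * h) = orb h := by
  unfold orb
  rw [map_mul, act_T, Equiv.Perm.mul_apply, tr_apply]

theorem orb_A (h : HH) : orb (HH.A * h) = pA (orb h) := by
  unfold orb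
  rw [map_mul, act_A, Equiv.Perm.mul_apply, fst_apply]

theorem orb_B (h : HH) : orb (HH.B * h) = pB (orb h) := by
  unfold orb
  rw [map_mul, act_B, Equiv.Perm.mul_apply, fst_apply]

theorem orb_W (h : HH) : orb (HH.A * HH.B * HH.A⁻¹ * HH.B⁻¹ * h) = pW (orb h) := by
  unfold orb
  rw [map_mul, map_mul, map_mul, map_mul, map_inv, map_inv, act_A, act_B, fst_pW,
    Equiv.Perm.mul_apply, fst_apply]

/-- the shift function -/
noncomputable def qq (h : HH) : ℤ := (2 * tt (orb h).1) / 3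

theorem qq_T (h : HH) : qq (HH.T * h) = qq h := by
  unfold qq
  rw [orb_T]

theorem qq_W (h : HH) : qq (HH.A * HH.B * HH.A⁻¹ * HH.B⁻¹ * h) = qq h + 4 := by
  unfold qq
  rw [orb_W, tt_pW]
  omega

theorem tt_iv2 (s r : L3) (v : SS) : |tt ((iv s * iv r) v).1 - tt v.1| ≤ 10 := by
  have h1 := abs_le.1 (tt_app s (app r v.1))
  have h2 := abs_le.1 (tt_app r v.1)
  show |tt (app s (app r v.1)) - tt v.1| ≤ 10
  rw [abs_le]
  constructor <;> linarith

theorem qq_A (h : HH) : |qq (HH.A * h) - qq h| ≤ 8 := by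
  unfold qq
  rw [orb_A]
  have h1 := abs_le.1 (tt_iv2 L3.x L3.y (orb h))
  change -10 ≤ tt (pA (orb h)).1 - tt (orb h).1 ∧ tt (pA (orb h)).1 - tt (orb h).1 ≤ 10 at h1
  rw [abs_le]
  omega

theorem qq_B (h : HH) : |qq (HH.B * h) - qq h| ≤ 8 := by
  unfold qq
  rw [orb_B]
  have h1 := abs_le.1 (tt_iv2 L3.y L3.z (orb h))
  change -10 ≤ tt (pB (orb h)).1 - tt (orb h).1 ∧ tt (pB (orb h)).1 - tt (orb h).1 ≤ 10 at h1
  rw [abs_le]
  omega

end Pool.Agent.W392.UB
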