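import Mathlib

/-!
No geometric action on a CAT(0) space: the CN inequality (midpoints) is all that is used.
-/

set_option autoImplicit false

open Filter Topology

namespace Pool.Agent.W392.UB

/-- midpoints satisfying the inequality of Bruhat and Tits -/
def CN (X : Type*) [MetricSpace X] : Prop :=
  ∀ x y : X, ∃ m : X, ∀ z : X,
    dist z m ^ 2 ≤ (dist z x ^ 2 + dist z y ^ 2) / 2 - dist x y ^ 2 / 4

section basic

variable {X : Type*} [MetricSpace X] (hX : CN X)

include hX in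
theorem four_pt (A B C D : X) :
    dist A C ^ 2 + dist B D ^ 2 ≤ dist A B ^ 2 + dist C B ^ 2 + dist C D ^ 2 + dist A D ^ 2 := by
  obtain ⟨m, hm⟩ := hX A C
  have h1 := hm B
  have h2 := hm D
  have h3 : dist B D ≤ dist B m + dist D m := by
    have := dist_triangle B m D
    rwa [dist_comm m D] at this
  have h4 : dist B D ^ 2 ≤ (dist B m + dist D m) ^ 2 := by
    apply pow_le_pow_left₀ dist_nonneg h3
  rw [dist_comm B A, dist_comm B C] at h1
  rw [dist_comm D A, dist_comm D C] at h2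
  nlinarith [sq_nonneg (dist B m - dist D m)]

include hX in
theorem flat_strip (Y Z P Q : X) :
    |(dist Y P - dist Z P) - (dist Y Q - dist Z Q)| * dist Z P ≤ (dist Y Z + dist P Q) ^ 2 := by
  have h1 := four_pt hX Y Z P Q
  have h2 := four_pt hX Y Z Q P
  have t1 : |dist Y Q - dist Z Q| ≤ dist Y Z := abs_dist_sub_le _ _ _
  have t2 : |dist Y P - dist Y Q| ≤ dist P Q := by
    rw [dist_comm Y P, dist_comm Y Q]
    exact abs_dist_sub_le _ _ _
  have t3 : |dist Z P - dist Z Q| ≤ dist P Q := by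
    rw [dist_comm Z P, dist_comm Z Q]
    exact abs_dist_sub_le _ _ _
  have n1 : 0 ≤ dist Y P := dist_nonneg
  rw [dist_comm P Z] at h1
  rw [dist_comm Q Z, dist_comm Q P] at h2
  generalize dist Y P = α at *
  generalize dist Z P = β at *
  generalize dist Y Q = γ at *
  generalize dist Z Q = δ at *
  generalize dist Y Z = e at *
  generalize dist P Q = f at *
  have he : 0 ≤ e := (abs_nonneg _).trans t1
  have hf : 0 ≤ f := (abs_nonneg _).trans t2
  have h3 : |(α - β) - (γ - δ)| * (α + β) ≤ (e + f) ^ 2 := by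
    by_cases hs : 0 ≤ α + β
    · have e1 : |(α - β) - (γ - δ)| * (α + β) = |((α - β) - (γ - δ)) * (α + β)| := by
        rw [abs_mul, abs_of_nonneg hs]
      rw [e1]
      have e2 : ((α - β) - (γ - δ)) * (α + β) =
        ((α ^ 2 - β ^ 2) - (γ ^ 2 - δ ^ 2)) + (γ - δ) * ((γ + δ) - (α + β)) := by ring
      rw [e2]
      have k1 : |(α ^ 2 - β ^ 2) - (γ ^ 2 - δ ^ 2)| ≤ e ^ 2 + f ^ 2 := by
        rw [abs_le]
        constructor <;> linarith
      have k2 : |(γ + δ) - (α + β)| ≤ 2 * f := by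
        have a1 := abs_le.1 t2
        have a2 := abs_le.1 t3
        rw [abs_le]
        constructor <;> linarith
      have k3 : |(γ - δ) * ((γ + δ) - (α + β))| ≤ e * (2 * f) := by
        rw [abs_mul]
        exact mul_le_mul t1 k2 (abs_nonneg _) he
      calc _ ≤ |(α ^ 2 - β ^ 2) - (γ ^ 2 - δ ^ 2)| + |(γ - δ) * ((γ + δ) - (α + β))| :=
            abs_add_le _ _
        _ ≤ (e ^ 2 + f ^ 2) + e * (2 * f) := add_le_add k1 k3
        _ = (e + f) ^ 2 := by ring
    · have := mul_nonpos_of_nonneg_of_nonpos (abs_nonneg ((α - β) - (γ - δ))) (le_of_not_ge hs)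
      exact this.trans (sq_nonneg _)
  have h4 : |(α - β) - (γ - δ)| * β ≤ |(α - β) - (γ - δ)| * (α + β) :=
    mul_le_mul_of_nonneg_left (by linarith) (abs_nonneg _)
  exact h4.trans h3

end basic

section action

variable {X : Type*} [MetricSpace X] (hX : CN X) {G : Type*} [Group G] [MulAction G X]
  (hi : ∀ (g : G) (x y : X), dist (g • x) (g • y) = dist x y)

include hX hi in
/-- doubling of displacement -/
theorem disp_two (g : G) (δ : ℝ) (h : ∀ y : X, δ ≤ dist y (g • y)) (y : X) :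
    2 * δ ≤ dist y ((g * g) • y) := by
  obtain ⟨m, hm⟩ := hX y (g • y)
  have h1 := hm (g • m)
  have h2 := hm y
  have h3 := hm (g⁻¹ • y)
  have e1 : dist (g • m) (g • y) = dist y m := by rw [hi, dist_comm]
  have e2 : dist (g • m) y = dist (g⁻¹ • y) m := by
    rw [← hi g⁻¹ (g • m) y, inv_smul_smul, dist_comm]
  have e3 : dist (g⁻¹ • y) y = dist y (g • y) := by
    rw [← hi g (g⁻¹ • y) y, smul_inv_smul]
  have e4 : dist (g⁻¹ • y) (g • y) = dist y ((g * g) • y) := by
    rw [← hi g (g⁻¹ • y) (g • y), smul_inv_smul, smul_smul]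
  rw [e1, e2] at h1
  rw [dist_self] at h2
  rw [e3, e4] at h3
  have h4 : dist (g • m) m ^ 2 ≤ (dist y ((g * g) • y) / 2) ^ 2 := by nlinarith
  have h5 : dist (g • m) m ≤ dist y ((g * g) • y) / 2 :=
    le_of_sq_le_sq h4 (by positivity)
  have h6 := h m
  rw [dist_comm] at h6
  linarith

include hX hi in
theorem disp_pow (g : G) (δ : ℝ) (h : ∀ y : X, δ ≤ dist y (g • y)) (j : ℕ) :
    ∀ y : X, 2 ^ j * δ ≤ dist y ((g ^ (2 ^ j)) • y) := by
  induction j with
  | zero =>
    intro y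
    simpa using h y
  | succ j ih =>
    intro y
    have := disp_two hX hi (g ^ (2 ^ j)) _ ih y
    rw [← pow_add, ← two_mul, ← pow_succ'] at this
    rw [pow_succ']
    linarith

include hi in
/-- the displacement of an element of infinite order is bounded below -/
theorem disp_pos (hpd : ∀ K : Set X, IsCompact K →
      {g : G | (((fun x => g • x) '' K) ∩ K).Nonempty}.Finite)
    (hcc : ∃ K : Set X, IsCompact K ∧ ∀ x : X, ∃ g : G, g • x ∈ K)
    (w : G) (hw : ∀ n : ℕ, 0 < n → w ^ n ≠ 1) : ∃ δ : ℝ, 0 < δ ∧ ∀ y : X, δ ≤ dist y (w • y) := by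
  by_contra hcon
  push Not at hcon
  obtain ⟨K, hK, hK2⟩ := hcc
  have h1 : ∀ n : ℕ, ∃ y : X, dist y (w • y) < 1 / ((n : ℝ) + 1) :=
    fun n => hcon _ (by positivity)
  choose y hy using h1
  choose g hg using fun n => hK2 (y n)
  obtain ⟨z, hz, φ, hφ, hlim⟩ := hK.tendsto_subseq hg
  set v : ℕ → G := fun n => g (φ n) * w * (g (φ n))⁻¹ with hv
  set u : ℕ → X := fun n => g (φ n) • y (φ n) with hu
  have hulim : Tendsto u atTop (𝓝 z) := hlim
  have hd : ∀ n, dist (u n) (v n • u n) = dist (y (φ n)) (w • y (φ n)) := by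
    intro n
    have e : v n • u n = g (φ n) • (w • y (φ n)) := by
      rw [hv, hu]
      simp only [smul_smul]
      congr 1
      group
    rw [e, hu, hi]
  have hd0 : Tendsto (fun n => dist (u n) (v n • u n)) atTop (𝓝 0) := by
    have h2 : Tendsto (fun n : ℕ => 1 / ((n : ℝ) + 1)) atTop (𝓝 0) :=
      tendsto_one_div_add_atTop_nhds_zero_nat
    refine squeeze_zero (fun n => dist_nonneg) (fun n => ?_) h2
    rw [hd]
    refine (hy (φ n)).le.trans ?_
    apply one_div_le_one_div_of_le (by positivity)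
    have : (n : ℝ) ≤ (φ n : ℝ) := by exact_mod_cast hφ.le_apply
    linarith
  have hvlim : Tendsto (fun n => v n • u n) atTop (𝓝 z) := by
    rw [tendsto_iff_dist_tendsto_zero]
    have h3 : Tendsto (fun n => dist (u n) (v n • u n) + dist (u n) z) atTop (𝓝 (0 + 0)) :=
      hd0.add (tendsto_iff_dist_tendsto_zero.1 hulim)
    rw [add_zero] at h3
    refine squeeze_zero (fun n => dist_nonneg) (fun n => ?_) h3
    rw [dist_comm (u n) (v n • u n)]
    exact dist_triangle _ _ _
  have hK' : IsCompact (insert z (Set.range u) ∪ insert z (Set.range (fun n => v n • u n))) :=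
    hulim.isCompact_insert_range.union hvlim.isCompact_insert_range
  have hfin := hpd _ hK'
  have hmem : ∀ n, v n ∈ {g : G | (((fun x => g • x) ''
      (insert z (Set.range u) ∪ insert z (Set.range (fun n => v n • u n)))) ∩
      (insert z (Set.range u) ∪ insert z (Set.range (fun n => v n • u n)))).Nonempty} := by
    intro n
    refine ⟨v n • u n, ⟨u n, Or.inl (Or.inr ⟨n, rfl⟩), rfl⟩, Or.inr (Or.inr ⟨n, rfl⟩)⟩
  obtain ⟨s, hs⟩ : ∃ s, ∃ᶠ n in atTop, v n = s := by
    by_contra hne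
    push Not at hne
    have h4 : ∀ᶠ n in atTop, ∀ s ∈ {g : G | (((fun x => g • x) ''
      (insert z (Set.range u) ∪ insert z (Set.range (fun n => v n • u n)))) ∩
      (insert z (Set.range u) ∪ insert z (Set.range (fun n => v n • u n)))).Nonempty}, v n ≠ s := by
      rw [Filter.eventually_all_finite hfin]
      intro s _
      exact hne s
    obtain ⟨n, hn⟩ := h4.exists
    exact hn (v n) (hmem n) rfl
  have hsz : s • z = z := by
    have h5 : dist z (s • z) = 0 := by
      apply le_antisymm _ dist_nonneg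
      apply le_of_forall_pos_le_add
      intro ε hε
      have h6 : ∀ᶠ n in atTop, dist (u n) z < ε / 3 := by
        have := (tendsto_iff_dist_tendsto_zero.1 hulim).eventually (gt_mem_nhds (show (0:ℝ) < ε / 3 by positivity))
        exact this
      have h7 : ∀ᶠ n in atTop, dist (u n) (v n • u n) < ε / 3 :=
        hd0.eventually (gt_mem_nhds (show (0:ℝ) < ε / 3 by positivity))
      obtain ⟨n, hn1, hn2, hn3⟩ := (hs.and_eventually (h6.and h7)).exists
      rw [hn1] at hn3
      have t1 := dist_triangle z (u n) (s • z)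
      have t2 := dist_triangle (u n) (s • u n) (s • z)
      rw [hi] at t2
      rw [dist_comm z (u n)] at t1
      linarith
    exact (dist_eq_zero.1 h5).symm
  obtain ⟨n, hn⟩ := hs.exists
  have hpow : ∀ k : ℕ, s ^ k • z = z := by
    intro k
    induction k with
    | zero => simp
    | succ k ih => rw [pow_succ, mul_smul, hsz, ih]
  have hfin2 := hpd {z} isCompact_singleton
  have hmem2 : ∀ k : ℕ, s ^ k ∈ {g : G | (((fun x => g • x) '' {z}) ∩ {z}).Nonempty} := by
    intro k
    refine ⟨z, ⟨z, rfl, hpow k⟩, rfl⟩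
  obtain ⟨i, j, hij, hEq⟩ : ∃ i j : ℕ, i ≠ j ∧ s ^ i = s ^ j := by
    by_contra hne
    push Not at hne
    have hinj : Function.Injective (fun k : ℕ => s ^ k) := fun i j h => by
      by_contra hh
      exact hne i j hh h
    exact (Set.infinite_range_of_injective hinj) (hfin2.subset (by
      rintro _ ⟨k, rfl⟩
      exact hmem2 k))
  have conj : ∀ k : ℕ, s ^ k = g (φ n) * w ^ k * (g (φ n))⁻¹ := by
    intro k
    rw [← hn, hv, conj_pow]
  have key : ∀ i j : ℕ, i < j → s ^ i = s ^ j → False := by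
    intro i j hij hEq
    rw [conj, conj] at hEq
    have h8 : w ^ i = w ^ j := mul_left_cancel (mul_right_cancel hEq)
    apply hw (j - i) (by omega)
    have h9 : w ^ i * w ^ (j - i) = w ^ i * 1 := by
      rw [← pow_add, mul_one, h8]
      congr 1
      omega
    exact mul_left_cancel h9
  rcases lt_or_gt_of_ne hij with h | h
  · exact key _ _ h hEq
  · exact key _ _ h hEq.symm

/-- the difference of distances to `T ^ n x` -/
noncomputable def ph (T : G) (x : X) (n : ℕ) (g : G) : ℝ :=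
  dist (g • x) (T ^ n • x) - dist x (T ^ n • x)

include hX hi in
theorem ph_add (T g h : G) (x : X) (hT : T * g = g * T)
    (hl : Tendsto (fun n : ℕ => dist x (T ^ n • x)) atTop atTop) :
    Tendsto (fun n => ph T x n (g * h) - ph T x n g - ph T x n h) atTop (𝓝 0) := by
  have hc : Commute T g := hT
  have hlim : Tendsto (fun n : ℕ => (dist (h • x) x + dist x (g • x)) ^ 2 /
      (dist x (T ^ n • x) - dist x (g • x))) atTop (𝓝 0) := by
    apply Tendsto.div_atTop tendsto_const_nhds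
    exact tendsto_atTop_add_const_right _ _ hl
  rw [tendsto_zero_iff_abs_tendsto_zero]
  refine squeeze_zero' (Eventually.of_forall (fun n => abs_nonneg _)) ?_ hlim
  filter_upwards [hl.eventually_gt_atTop (dist x (g • x))] with n hn
  have hs := flat_strip hX ((g * h) • x) (g • x) (T ^ n • x) (g • T ^ n • x)
  have e1 : dist ((g * h) • x) (g • T ^ n • x) = dist (h • x) (T ^ n • x) := by
    rw [mul_smul, hi]
  have e2 : dist (g • x) (g • T ^ n • x) = dist x (T ^ n • x) := hi _ _ _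
  have e3 : dist ((g * h) • x) (g • x) = dist (h • x) x := by rw [mul_smul, hi]
  have e4 : dist (T ^ n • x) (g • T ^ n • x) = dist x (g • x) := by
    rw [smul_smul, ← (hc.pow_left n).eq, mul_smul, hi]
  rw [e1, e2, e3, e4] at hs
  have e5 : ph T x n (g * h) - ph T x n g - ph T x n h =
      (dist ((g * h) • x) (T ^ n • x) - dist (g • x) (T ^ n • x)) -
      (dist (h • x) (T ^ n • x) - dist x (T ^ n • x)) := by
    unfold ph
    ring
  show |ph T x n (g * h) - ph T x n g - ph T x n h| ≤ _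
  rw [e5, le_div_iff₀ (by linarith)]
  refine le_trans (mul_le_mul_of_nonneg_left ?_ (abs_nonneg _)) hs
  have t := dist_triangle x (g • x) (T ^ n • x)
  linarith

theorem ph_one (T : G) (x : X) (n : ℕ) : ph T x n 1 = 0 := by
  unfold ph
  rw [one_smul, sub_self]

include hX hi in
theorem ph_comm (T a b : G) (x : X) (ha : T * a = a * T) (hb : T * b = b * T)
    (hl : Tendsto (fun n : ℕ => dist x (T ^ n • x)) atTop atTop) :
    Tendsto (fun n => ph T x n (a * b * a⁻¹ * b⁻¹)) atTop (𝓝 0) := by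
  have ca : Commute T a := ha
  have cb : Commute T b := hb
  have h1 := ph_add hX hi T a a⁻¹ x ha hl
  have h2 := ph_add hX hi T b b⁻¹ x hb hl
  have h3 := ph_add hX hi T a b x ha hl
  have h4 := ph_add hX hi T (a * b) a⁻¹ x (ca.mul_right cb) hl
  have h5 := ph_add hX hi T (a * b * a⁻¹) b⁻¹ x ((ca.mul_right cb).mul_right ca.inv_right) hl
  have h6 := ((h3.add h4).add h5).sub (h1.add h2)
  simp only [mul_inv_cancel, ph_one] at h6
  norm_num at h6
  refine h6.congr (fun n => ?_)
  ring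

include hX hi in
theorem ph_pow (T w : G) (x : X) (hw : T * w = w * T)
    (hl : Tendsto (fun n : ℕ => dist x (T ^ n • x)) atTop atTop)
    (h0 : Tendsto (fun n => ph T x n w) atTop (𝓝 0)) (k : ℕ) :
    Tendsto (fun n => ph T x n (w ^ k)) atTop (𝓝 0) := by
  induction k with
  | zero =>
    simp only [pow_zero, ph_one]
    exact tendsto_const_nhds
  | succ k ih =>
    have h1 := ph_add hX hi T w (w ^ k) x hw hl
    have h2 := (h1.add h0).add ih
    norm_num at h2
    rw [pow_succ']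
    refine h2.congr (fun n => ?_)
    ring

include hi in
/-- arbitrarily large `n` with small difference -/
theorem ph_T (T : G) (x : X) (τ : ℝ) (hτ : ∀ n : ℕ, τ * n ≤ dist x (T ^ n • x)) (k : ℕ) :
    ∃ᶠ n in atTop, ph T x n (T ^ k) ≤ -(k * τ) + 1 := by
  intro hcon
  rw [eventually_atTop] at hcon
  obtain ⟨n0, hn0⟩ := hcon
  have h1 : ∀ n, n0 ≤ n → dist x (T ^ (n + k) • x) ≤ dist x (T ^ n • x) + (k * τ - 1) := by
    intro n hn
    have h2 : ¬ (ph T x (n + k) (T ^ k) ≤ -(k * τ) + 1) := hn0 (n + k) (by omega)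
    unfold ph at h2
    have e : dist (T ^ k • x) (T ^ (n + k) • x) = dist x (T ^ n • x) := by
      rw [add_comm, pow_add, mul_smul, hi]
    rw [e] at h2
    push Not at h2
    linarith
  have h3 : ∀ j : ℕ, dist x (T ^ (n0 + j * k) • x) ≤ dist x (T ^ n0 • x) + j * (k * τ - 1) := by
    intro j
    induction j with
    | zero => simp
    | succ j ih =>
      have h4 := h1 (n0 + j * k) (by omega)
      have e : n0 + j * k + k = n0 + (j + 1) * k := by ring
      rw [e] at h4
      push_cast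
      linarith
  obtain ⟨j, hj⟩ := exists_nat_gt (dist x (T ^ n0 • x) - τ * n0)
  have h5 := h3 j
  have h6 := hτ (n0 + j * k)
  push_cast at h6
  nlinarith

include hX hi in
/-- the main estimate -/
theorem main_est (T w c : G) (x : X) (τ : ℝ) (hτ0 : 0 < τ)
    (hτ : ∀ n : ℕ, τ * n ≤ dist x (T ^ n • x)) (hTw : T * w = w * T)
    (hw0 : Tendsto (fun n => ph T x n w) atTop (𝓝 0))
    (hrel : c * (w * T) = T * c) (k : ℕ) (hk : 2 ≤ k * τ) :
    dist x (w ^ k • x) ^ 2 / 4 ≤ (dist x (T ^ k • x) ^ 2 +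
      (dist x (T ^ k • x) + 2 * dist x (c • x)) ^ 2) / 2 - (k * τ - 2) ^ 2 := by
  have hl : Tendsto (fun n : ℕ => dist x (T ^ n • x)) atTop atTop := by
    refine tendsto_atTop_mono hτ ?_
    exact Tendsto.const_mul_atTop hτ0 tendsto_natCast_atTop_atTop
  have hcw : Commute T w := hTw
  have h1 := ph_pow hX hi T w x hTw hl hw0 k
  have h2 := ph_add hX hi T (w ^ k) (T ^ k) x (hcw.pow_right k) hl
  have h3 : ∀ᶠ n in atTop, ph T x n (w ^ k * T ^ k) ≤ ph T x n (T ^ k) + 1 := by
    have h4 := h1.add h2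
    rw [add_zero] at h4
    have h5 : ∀ᶠ n in atTop, ph T x n (w ^ k) +
        (ph T x n (w ^ k * T ^ k) - ph T x n (w ^ k) - ph T x n (T ^ k)) < 1 :=
      h4.eventually (gt_mem_nhds one_pos)
    filter_upwards [h5] with n hn
    linarith
  obtain ⟨n, hn1, hn2⟩ := ((ph_T hi T x τ hτ k).and_eventually h3).exists
  obtain ⟨m, hm⟩ := hX (T ^ k • x) ((w ^ k * T ^ k) • x)
  have h6 := hm (T ^ n • x)
  have h7 := hm x
  unfold ph at hn1 hn2
  rw [dist_comm (T ^ k • x) (T ^ n • x)] at hn1 hn2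
  rw [dist_comm ((w ^ k * T ^ k) • x) (T ^ n • x)] at hn2
  have e1 : dist (T ^ k • x) ((w ^ k * T ^ k) • x) = dist x (w ^ k • x) := by
    rw [← (hcw.pow_pow k k).eq, mul_smul, hi]
  have e2 : dist x ((w ^ k * T ^ k) • x) ≤ dist x (T ^ k • x) + 2 * dist x (c • x) := by
    have e3 : w ^ k * T ^ k = c⁻¹ * T ^ k * c := by
      rw [← hcw.symm.mul_pow]
      have e4 : w * T = c⁻¹ * T * c := by
        rw [mul_assoc, ← hrel, inv_mul_cancel_left]
      rw [e4]
      have e5 := conj_pow (a := c⁻¹) (b := T) (i := k)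
      rw [inv_inv] at e5
      exact e5
    rw [e3]
    have e6 : dist x ((c⁻¹ * T ^ k * c) • x) = dist (c • x) (T ^ k • c • x) := by
      rw [← hi c x, smul_smul, ← mul_assoc, mul_inv_cancel_left, mul_smul]
    rw [e6]
    have t1 := dist_triangle (c • x) x (T ^ k • c • x)
    have t2 := dist_triangle x (T ^ k • x) (T ^ k • c • x)
    rw [hi] at t2
    rw [dist_comm (c • x) x] at t1
    linarith
  rw [e1] at h6 h7
  have hM : 0 ≤ dist x (T ^ n • x) - k * τ + 2 := by
    have := dist_nonneg (x := T ^ n • x) (y := T ^ k • x)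
    linarith
  have h8 : dist (T ^ n • x) m ^ 2 ≤ (dist x (T ^ n • x) - k * τ + 2) ^ 2 := by
    have k1 : dist (T ^ n • x) (T ^ k • x) ^ 2 ≤ (dist x (T ^ n • x) - k * τ + 2) ^ 2 :=
      pow_le_pow_left₀ dist_nonneg (by linarith) 2
    have k2 : dist (T ^ n • x) ((w ^ k * T ^ k) • x) ^ 2 ≤
        (dist x (T ^ n • x) - k * τ + 2) ^ 2 :=
      pow_le_pow_left₀ dist_nonneg (by linarith) 2
    have k3 := sq_nonneg (dist x (w ^ k • x))
    linarith
  have h9 : dist (T ^ n • x) m ≤ dist x (T ^ n • x) - k * τ + 2 := le_of_sq_le_sq h8 hM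
  have h10 : k * τ - 2 ≤ dist x m := by
    have t := dist_triangle x m (T ^ n • x)
    rw [dist_comm m] at t
    linarith
  have h11 : (k * τ - 2) ^ 2 ≤ dist x m ^ 2 := pow_le_pow_left₀ (by linarith) h10 2
  have h12 : dist x ((w ^ k * T ^ k) • x) ^ 2 ≤
      (dist x (T ^ k • x) + 2 * dist x (c • x)) ^ 2 := pow_le_pow_left₀ dist_nonneg e2 2
  linarith

include hX hi in
/-- The main theorem of this file. -/
theorem no_geometric [Nonempty X] (hpd : ∀ K : Set X, IsCompact K →
      {g : G | (((fun x => g • x) '' K) ∩ K).Nonempty}.Finite)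
    (hcc : ∃ K : Set X, IsCompact K ∧ ∀ x : X, ∃ g : G, g • x ∈ K)
    (a b c T : G) (ha : T * a = a * T) (hb : T * b = b * T)
    (hrel : c * ((a * b * a⁻¹ * b⁻¹) * T) = T * c)
    (hw : ∀ n : ℕ, 0 < n → (a * b * a⁻¹ * b⁻¹) ^ n ≠ 1) : False := by
  obtain ⟨δ, hδ, hδ2⟩ := disp_pos hi hpd hcc _ hw
  have ca : Commute T a := ha
  have cb : Commute T b := hb
  have hTw : T * (a * b * a⁻¹ * b⁻¹) = (a * b * a⁻¹ * b⁻¹) * T :=
    ((ca.mul_right cb).mul_right ca.inv_right).mul_right cb.inv_right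
  have hphw := fun x hl => ph_comm hX hi T a b x ha hb hl
  generalize a * b * a⁻¹ * b⁻¹ = w at *
  clear ha hb ca cb
  have hcw : Commute T w := hTw
  let x : X := Classical.arbitrary X
  have hdp := fun j => disp_pow hX hi w δ hδ2 j x
  have hsub : Subadditive (fun n : ℕ => dist x (T ^ n • x)) := by
    intro m n
    have t := dist_triangle x (T ^ m • x) (T ^ (m + n) • x)
    have e : dist (T ^ m • x) (T ^ (m + n) • x) = dist x (T ^ n • x) := by
      rw [pow_add, mul_smul, hi]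
    rw [e] at t
    exact t
  have hbd : BddBelow (Set.range fun n : ℕ => dist x (T ^ n • x) / n) := by
    refine ⟨0, ?_⟩
    rintro _ ⟨n, rfl⟩
    positivity
  have hlim := hsub.tendsto_lim hbd
  have hτ0 : 0 ≤ hsub.lim := by
    refine ge_of_tendsto' hlim (fun n => ?_)
    positivity
  have hτ : ∀ n : ℕ, hsub.lim * n ≤ dist x (T ^ n • x) := by
    intro n
    rcases Nat.eq_zero_or_pos n with rfl | hn
    · simp
    · have := hsub.lim_le_div hbd (Nat.pos_iff_ne_zero.1 hn)
      rwa [le_div_iff₀ (by exact_mod_cast hn)] at this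
  generalize hsub.lim = τ at *
  have hp2 : Tendsto (fun j : ℕ => 2 ^ j) atTop atTop :=
    tendsto_pow_atTop_atTop_of_one_lt (r := 2) (by norm_num)
  have hlim2 : Tendsto (fun j : ℕ => dist x (T ^ (2 ^ j) • x) / (((2 ^ j : ℕ)) : ℝ)) atTop (𝓝 τ) :=
    hlim.comp hp2
  have hcst : ∀ r : ℝ, Tendsto (fun j : ℕ => r / (((2 ^ j : ℕ)) : ℝ)) atTop (𝓝 0) := by
    intro r
    exact (tendsto_const_div_atTop_nhds_zero_nat r).comp hp2
  have hpos : ∀ j : ℕ, (0 : ℝ) < (((2 ^ j : ℕ)) : ℝ) := fun j => by positivity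
  rcases hτ0.eq_or_lt with h0 | h0
  · -- zero translation length
    subst h0
    have key : ∀ j : ℕ, δ ≤ 2 * (dist x (T ^ (2 ^ j) • x) / (((2 ^ j : ℕ)) : ℝ)) +
        (2 * dist x (c • x)) / (((2 ^ j : ℕ)) : ℝ) := by
      intro j
      have h1 := hdp j
      have e2 : dist x ((w ^ (2 ^ j) * T ^ (2 ^ j)) • x) ≤
          dist x (T ^ (2 ^ j) • x) + 2 * dist x (c • x) := by
        have e3 : w ^ (2 ^ j) * T ^ (2 ^ j) = c⁻¹ * T ^ (2 ^ j) * c := by
          rw [← hcw.symm.mul_pow]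
          have e4 : w * T = c⁻¹ * T * c := by
            rw [mul_assoc, ← hrel, inv_mul_cancel_left]
          rw [e4]
          have e5 := conj_pow (a := c⁻¹) (b := T) (i := 2 ^ j)
          rw [inv_inv] at e5
          exact e5
        rw [e3]
        have e6 : dist x ((c⁻¹ * T ^ (2 ^ j) * c) • x) = dist (c • x) (T ^ (2 ^ j) • c • x) := by
          rw [← hi c x, smul_smul, ← mul_assoc, mul_inv_cancel_left, mul_smul]
        rw [e6]
        have t1 := dist_triangle (c • x) x (T ^ (2 ^ j) • c • x)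
        have t2 := dist_triangle x (T ^ (2 ^ j) • x) (T ^ (2 ^ j) • c • x)
        rw [hi] at t2
        rw [dist_comm (c • x) x] at t1
        linarith
      have e1 : dist (T ^ (2 ^ j) • x) ((w ^ (2 ^ j) * T ^ (2 ^ j)) • x) =
          dist x (w ^ (2 ^ j) • x) := by
        rw [← (hcw.pow_pow _ _).eq, mul_smul, hi]
      have t := dist_triangle (T ^ (2 ^ j) • x) x ((w ^ (2 ^ j) * T ^ (2 ^ j)) • x)
      rw [e1, dist_comm (T ^ (2 ^ j) • x) x] at t
      have h2 : (((2 ^ j : ℕ)) : ℝ) * δ ≤ 2 * dist x (T ^ (2 ^ j) • x) + 2 * dist x (c • x) := by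
        push_cast
        linarith
      have h3 : 2 * (dist x (T ^ (2 ^ j) • x) / (((2 ^ j : ℕ)) : ℝ)) +
        (2 * dist x (c • x)) / (((2 ^ j : ℕ)) : ℝ) =
        (2 * dist x (T ^ (2 ^ j) • x) + 2 * dist x (c • x)) / (((2 ^ j : ℕ)) : ℝ) := by ring
      rw [h3, le_div_iff₀ (hpos j)]
      linarith
    have hl : Tendsto (fun j : ℕ => 2 * (dist x (T ^ (2 ^ j) • x) / (((2 ^ j : ℕ)) : ℝ)) +
        (2 * dist x (c • x)) / (((2 ^ j : ℕ)) : ℝ)) atTop (𝓝 (2 * 0 + 0)) :=
      (hlim2.const_mul 2).add (hcst _)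
    have := ge_of_tendsto' hl key
    norm_num at this
    linarith
  · have hlT : Tendsto (fun n : ℕ => dist x (T ^ n • x)) atTop atTop := by
      refine tendsto_atTop_mono hτ ?_
      exact Tendsto.const_mul_atTop h0 tendsto_natCast_atTop_atTop
    have hw0 := hphw x hlT
    have key : ∀ᶠ j : ℕ in atTop, δ ^ 2 / 4 ≤
        ((dist x (T ^ (2 ^ j) • x) / (((2 ^ j : ℕ)) : ℝ)) ^ 2 +
        (dist x (T ^ (2 ^ j) • x) / (((2 ^ j : ℕ)) : ℝ) +
          (2 * dist x (c • x)) / (((2 ^ j : ℕ)) : ℝ)) ^ 2) / 2 -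
          (τ - 2 / (((2 ^ j : ℕ)) : ℝ)) ^ 2 := by
      have hbig : ∀ᶠ j : ℕ in atTop, (2 : ℝ) / τ ≤ (((2 ^ j : ℕ)) : ℝ) :=
        (tendsto_natCast_atTop_atTop.comp hp2).eventually_ge_atTop _
      filter_upwards [hbig] with j hj
      rw [div_le_iff₀ h0] at hj
      have h1 := main_est hX hi T w c x τ h0 hτ hTw hw0 hrel (2 ^ j) hj
      have h2 := hdp j
      have h3 : ((((2 ^ j : ℕ)) : ℝ) * δ) ^ 2 ≤ dist x (w ^ (2 ^ j) • x) ^ 2 := by
        apply pow_le_pow_left₀ (by positivity)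
        push_cast
        exact h2
      have hp := hpos j
      generalize (((2 ^ j : ℕ)) : ℝ) = M at *
      have h4 : ((dist x (T ^ (2 ^ j) • x) / M) ^ 2 +
        (dist x (T ^ (2 ^ j) • x) / M + (2 * dist x (c • x)) / M) ^ 2) / 2 - (τ - 2 / M) ^ 2 =
        ((dist x (T ^ (2 ^ j) • x) ^ 2 + (dist x (T ^ (2 ^ j) • x) + 2 * dist x (c • x)) ^ 2) / 2 -
          (M * τ - 2) ^ 2) / M ^ 2 := by
        field_simp
      rw [h4, le_div_iff₀ (by positivity)]
      nlinarith
    have hl : Tendsto (fun j : ℕ => ((dist x (T ^ (2 ^ j) • x) / (((2 ^ j : ℕ)) : ℝ)) ^ 2 +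
        (dist x (T ^ (2 ^ j) • x) / (((2 ^ j : ℕ)) : ℝ) +
          (2 * dist x (c • x)) / (((2 ^ j : ℕ)) : ℝ)) ^ 2) / 2 -
          (τ - 2 / (((2 ^ j : ℕ)) : ℝ)) ^ 2) atTop
        (𝓝 ((τ ^ 2 + (τ + 0) ^ 2) / 2 - (τ - 0) ^ 2)) :=
      (((hlim2.pow 2).add ((hlim2.add (hcst _)).pow 2)).div_const 2).sub
        ((tendsto_const_nhds.sub (hcst 2)).pow 2)
    have h5 := ge_of_tendsto hl key
    have h6 : (τ ^ 2 + (τ + 0) ^ 2) / 2 - (τ - 0) ^ 2 = 0 := by ring
    rw [h6] at h5
    have h7 : 0 < δ ^ 2 / 4 := by positivity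
    linarith

end action

end Pool.Agent.W392.UB
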