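import Mathlib

/-!
The free-by-cyclic group `F_6 ⋊ ℤ` with `a, b` fixed and `c_0 → c_1 → c_2 → c_3 → c_0 [a, b]`.
-/

set_option autoImplicit false

namespace Pool.Agent.W392.UB

/-- mapping torus of an automorphism -/
abbrev MT {N : Type*} [Group N] (Φ : MulAut N) : Type _ :=
  N ⋊[zpowersHom (MulAut N) Φ] Multiplicative ℤ

section MT

variable {N : Type*} [Group N] (Φ : MulAut N)

/-- the stable letter -/
def MT.t : MT Φ := SemidirectProduct.inr (Multiplicative.ofAdd 1)

/-- the fibre -/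
def MT.i : N →* MT Φ := SemidirectProduct.inl

theorem MT.t_conj (n : N) : MT.t Φ * MT.i Φ n * (MT.t Φ)⁻¹ = MT.i Φ (Φ n) := by
  have h := SemidirectProduct.inl_aut (φ := zpowersHom (MulAut N) Φ) (Multiplicative.ofAdd 1) n
  rw [zpowersHom_apply, toAdd_ofAdd, zpow_one] at h
  rw [MT.i, h, MT.t, map_inv]

theorem zpow_conj {K : Type*} [Group K] (f : N →* K) (T : K)
    (h : ∀ n, f (Φ n) = T * f n * T⁻¹) (z : ℤ) : ∀ n, f ((Φ ^ z) n) = T ^ z * f n * (T ^ z)⁻¹ := by
  have h' : ∀ n, f (Φ⁻¹ n) = T⁻¹ * f n * T := by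
    intro n
    have h1 := h (Φ⁻¹ n)
    have e : Φ (Φ⁻¹ n) = n := MulEquiv.apply_symm_apply Φ n
    rw [e] at h1
    rw [h1]
    group
  induction z using Int.induction_on with
  | zero => simp
  | succ i ih =>
    intro n
    rw [zpow_add, zpow_one, MulAut.mul_apply, ih, h]
    group
  | pred i ih =>
    intro n
    rw [zpow_sub, zpow_one, MulAut.mul_apply, ih, h']
    group

/-- homomorphisms out of a mapping torus -/
def MT.lift {K : Type*} [Group K] (f : N →* K) (T : K)
    (h : ∀ n, f (Φ n) = T * f n * T⁻¹) : MT Φ →* K :=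
  SemidirectProduct.lift f (zpowersHom K T) (by
    intro g
    ext n
    simp only [MonoidHom.coe_comp, Function.comp_apply, MulEquiv.coe_toMonoidHom,
      zpowersHom_apply, MulAut.conj_apply]
    exact zpow_conj Φ f T h _ n)

theorem MT.lift_t {K : Type*} [Group K] (f : N →* K) (T : K)
    (h : ∀ n, f (Φ n) = T * f n * T⁻¹) : MT.lift Φ f T h (MT.t Φ) = T := by
  unfold MT.lift MT.t
  rw [SemidirectProduct.lift_inr]
  simp

theorem MT.lift_i {K : Type*} [Group K] (f : N →* K) (T : K)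
    (h : ∀ n, f (Φ n) = T * f n * T⁻¹) (n : N) : MT.lift Φ f T h (MT.i Φ n) = f n := by
  unfold MT.lift MT.i
  rw [SemidirectProduct.lift_inl]

theorem MT.gen (M : Subgroup (MT Φ)) (h1 : ∀ n, MT.i Φ n ∈ M) (h2 : MT.t Φ ∈ M) (g : MT Φ) :
    g ∈ M := by
  rw [← SemidirectProduct.inl_left_mul_inr_right g]
  refine M.mul_mem (h1 _) ?_
  have e : (SemidirectProduct.inr g.right : MT Φ) = (MT.t Φ) ^ (Multiplicative.toAdd g.right) := by
    unfold MT.t
    rw [← map_zpow, ← ofAdd_zsmul]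
    simp
  rw [e]
  exact M.zpow_mem h2 _

end MT

/-- free group of rank six -/
abbrev F6 : Type := FreeGroup (Fin 6)

namespace F6

/-- the commutator -/
def w : F6 := FreeGroup.of 0 * FreeGroup.of 1 * (FreeGroup.of 0)⁻¹ * (FreeGroup.of 1)⁻¹

/-- the endomorphism -/
def phi : F6 →* F6 := FreeGroup.lift
  ![FreeGroup.of 0, FreeGroup.of 1, FreeGroup.of 3, FreeGroup.of 4, FreeGroup.of 5,
    FreeGroup.of 2 * w]

/-- the inverse endomorphism -/
def psi : F6 →* F6 := FreeGroup.lift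
  ![FreeGroup.of 0, FreeGroup.of 1, FreeGroup.of 5 * w⁻¹, FreeGroup.of 2, FreeGroup.of 3,
    FreeGroup.of 4]

theorem phi_w : phi w = w := by
  simp [phi, w]

theorem psi_w : psi w = w := by
  simp [psi, w]

theorem psi_phi : psi.comp phi = MonoidHom.id F6 := by
  ext j
  fin_cases j
  · simp [phi, psi]
  · simp [phi, psi]
  · simp [phi, psi]
  · simp [phi, psi]
  · simp [phi, psi]
  · show psi (phi (FreeGroup.of 5)) = FreeGroup.of 5
    have e : phi (FreeGroup.of 5) = FreeGroup.of 2 * w := by simp [phi]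
    rw [e, map_mul, psi_w]
    simp [psi]

theorem phi_psi : phi.comp psi = MonoidHom.id F6 := by
  ext j
  fin_cases j
  · simp [phi, psi]
  · simp [phi, psi]
  · show phi (psi (FreeGroup.of 2)) = FreeGroup.of 2
    have e : psi (FreeGroup.of 2) = FreeGroup.of 5 * w⁻¹ := by simp [psi]
    rw [e, map_mul, map_inv, phi_w]
    simp [phi]
  · simp [phi, psi]
  · simp [phi, psi]
  · simp [phi, psi]

/-- the automorphism -/
def Phi : MulAut F6 := MonoidHom.toMulEquiv phi psi psi_phi phi_psi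

theorem Phi_apply (n : F6) : Phi n = phi n := rfl

end F6

/-- the group -/
abbrev GG : Type := MT F6.Phi

namespace GG

/-- stable letter -/
def t : GG := MT.t F6.Phi
/-- fibre -/
def i : F6 →* GG := MT.i F6.Phi
/-- generator -/
def a : GG := i (FreeGroup.of 0)
/-- generator -/
def b : GG := i (FreeGroup.of 1)
/-- generator -/
def c : GG := i (FreeGroup.of 2)

theorem conj (n : F6) : t * i n * t⁻¹ = i (F6.phi n) := MT.t_conj F6.Phi n

theorem conj' (n : F6) : t * i n = i (F6.phi n) * t := by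
  rw [← conj]
  group

theorem ta : t * a = a * t := by
  have h := conj' (FreeGroup.of 0)
  have e : F6.phi (FreeGroup.of 0) = FreeGroup.of 0 := by simp [F6.phi]
  rwa [e] at h

theorem tb : t * b = b * t := by
  have h := conj' (FreeGroup.of 1)
  have e : F6.phi (FreeGroup.of 1) = FreeGroup.of 1 := by simp [F6.phi]
  rwa [e] at h

theorem i3 : i (FreeGroup.of 3) = t * c * t⁻¹ := by
  rw [c, conj]
  congr 1

theorem i4 : i (FreeGroup.of 4) = t * (t * c * t⁻¹) * t⁻¹ := by
  rw [← i3, conj]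
  congr 1

theorem i5 : i (FreeGroup.of 5) = t * (t * (t * c * t⁻¹) * t⁻¹) * t⁻¹ := by
  rw [← i4, conj]
  congr 1

theorem i_w : i F6.w = a * b * a⁻¹ * b⁻¹ := by
  simp only [F6.w, map_mul, map_inv]
  rfl

theorem crel : c * (a * b * a⁻¹ * b⁻¹) * t ^ 4 = t ^ 4 * c := by
  have h := conj (FreeGroup.of 5)
  have e : F6.phi (FreeGroup.of 5) = FreeGroup.of 2 * F6.w := by simp [F6.phi]
  rw [e, map_mul, i5, i_w] at h
  change _ = c * (a * b * a⁻¹ * b⁻¹) at h
  rw [← h]
  simp only [pow_succ, pow_zero, one_mul, mul_assoc, inv_mul_cancel, mul_one, inv_mul_cancel_left]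

theorem w_order (n : ℕ) (hn : 0 < n) : (a * b * a⁻¹ * b⁻¹) ^ n ≠ 1 := by
  rw [← i_w, ← map_pow]
  intro h
  have h1 : F6.w ^ n = 1 := by
    have hi : Function.Injective i := SemidirectProduct.inl_injective
    exact hi (h.trans (map_one i).symm)
  have h2 : F6.w = 1 := by
    have := (pow_eq_one_iff_left (M := F6) (Nat.pos_iff_ne_zero.1 hn)).1 h1
    exact this
  have h3 : F6.w.toWord = [] := by rw [h2]; exact FreeGroup.toWord_one
  revert h3
  decide

section

variable {K : Type*} [Group K] (a' b' t' c' : K)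

/-- the restriction of a homomorphism to the fibre -/
def homF : F6 →* K := FreeGroup.lift
    ![a', b', c', t' * c' * t'⁻¹, t' * (t' * c' * t'⁻¹) * t'⁻¹,
      t' * (t' * (t' * c' * t'⁻¹) * t'⁻¹) * t'⁻¹]

theorem homF_conj (h1 : t' * a' = a' * t') (h2 : t' * b' = b' * t')
    (h3 : c' * (a' * b' * a'⁻¹ * b'⁻¹) * t' ^ 4 = t' ^ 4 * c') (n : F6) :
    homF a' b' t' c' (F6.Phi n) = t' * homF a' b' t' c' n * t'⁻¹ := by
  rw [F6.Phi_apply]
  have key : (homF a' b' t' c').comp F6.phi =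
      (MulAut.conj t').toMonoidHom.comp (homF a' b' t' c') := by
    ext j
    fin_cases j
    · simp [F6.phi, homF, h1]
    · simp [F6.phi, homF, h2]
    · simp [F6.phi, homF]
    · simp [F6.phi, homF]
    · simp [F6.phi, homF]
    · simp [F6.phi, F6.w, homF]
      have e : c' * (a' * b' * a'⁻¹ * b'⁻¹) = t' ^ 4 * c' * (t' ^ 4)⁻¹ := by
        rw [← h3, mul_inv_cancel_right]
      rw [e]
      simp only [pow_succ, pow_zero, one_mul, mul_assoc, mul_inv_rev]
  exact DFunLike.congr_fun key n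

variable (h1 : t' * a' = a' * t') (h2 : t' * b' = b' * t')
    (h3 : c' * (a' * b' * a'⁻¹ * b'⁻¹) * t' ^ 4 = t' ^ 4 * c')

/-- homomorphisms out of `GG` -/
def hom : GG →* K := MT.lift F6.Phi (homF a' b' t' c') t' (homF_conj a' b' t' c' h1 h2 h3)

theorem hom_t : hom a' b' t' c' h1 h2 h3 t = t' := MT.lift_t _ _ _ _

theorem hom_a : hom a' b' t' c' h1 h2 h3 a = a' := by
  refine Eq.trans (MT.lift_i _ _ _ _ _) ?_
  simp [homF]

theorem hom_b : hom a' b' t' c' h1 h2 h3 b = b' := by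
  refine Eq.trans (MT.lift_i _ _ _ _ _) ?_
  simp [homF]

theorem hom_c : hom a' b' t' c' h1 h2 h3 c = c' := by
  refine Eq.trans (MT.lift_i _ _ _ _ _) ?_
  simp [homF]

end

theorem gen (M : Subgroup GG) (ha : a ∈ M) (hb : b ∈ M) (ht : t ∈ M) (hc : c ∈ M) (g : GG) :
    g ∈ M := by
  apply MT.gen F6.Phi M _ ht
  have h3 : i (FreeGroup.of 3) ∈ M := by
    rw [i3]
    exact M.mul_mem (M.mul_mem ht hc) (M.inv_mem ht)
  have h4 : i (FreeGroup.of 4) ∈ M := by
    rw [i4, ← i3]
    exact M.mul_mem (M.mul_mem ht h3) (M.inv_mem ht)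
  have h5 : i (FreeGroup.of 5) ∈ M := by
    rw [i5, ← i4]
    exact M.mul_mem (M.mul_mem ht h4) (M.inv_mem ht)
  intro n
  show i n ∈ M
  induction n using FreeGroup.induction_on with
  | C1 =>
    rw [map_one]
    exact M.one_mem
  | of j =>
    fin_cases j
    · exact ha
    · exact hb
    · exact hc
    · exact h3
    · exact h4
    · exact h5
  | inv_of j ih =>
    rw [map_inv]
    exact M.inv_mem ih
  | mul x y hx hy =>
    rw [map_mul]
    exact M.mul_mem hx hy

end GG

end Pool.Agent.W392.UB
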