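import Pool.Agent.W392.UB.Act
import Pool.Agent.W392.UB.Gam

/-!
The two groups `GG` and `HH` act on each other, and the orbit maps are mutually inverse.
-/

set_option autoImplicit false

namespace Pool.Agent.W392.UB

section Tw

variable {G : Type*} [Group G] (t : G) (q : G → ℤ) (hq : ∀ g, q (t * g) = q g)

include hq in
theorem q_zpow (n : ℤ) (g : G) : q (t ^ n * g) = q g := by
  have hq' : ∀ g, q (t⁻¹ * g) = q g := by
    intro g
    have := hq (t⁻¹ * g)
    rw [mul_inv_cancel_left] at this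
    exact this.symm
  induction n using Int.induction_on with
  | zero => simp
  | succ i ih => rw [add_comm, zpow_add, zpow_one, mul_assoc, hq, ih]
  | pred i ih =>
    have e : (-(i : ℤ) - 1) = -1 + -(i : ℤ) := by ring
    rw [e, zpow_add, zpow_neg_one, mul_assoc, hq', ih]

/-- twist -/
def th : Equiv.Perm G where
  toFun := fun g => t ^ (-q g) * g
  invFun := fun g => t ^ (q g) * g
  left_inv := fun g => by
    show t ^ (q (t ^ (-q g) * g)) * (t ^ (-q g) * g) = g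
    rw [q_zpow t q hq, ← mul_assoc, ← zpow_add]
    simp
  right_inv := fun g => by
    show t ^ (-q (t ^ (q g) * g)) * (t ^ (q g) * g) = g
    rw [q_zpow t q hq, ← mul_assoc, ← zpow_add]
    simp

/-- the twisted left regular action -/
def Rr : G →* Equiv.Perm G :=
  (MulAut.conj (th t q hq)).toMonoidHom.comp (MulAction.toPermHom G G)

theorem Rr_apply (g h : G) (hg : t * g = g * t) :
    Rr t q hq g h = t ^ (q h - q (g * h)) * (g * h) := by
  have hc : Commute t g := hg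
  show t ^ (-q (g * (t ^ (q h) * h))) * (g * (t ^ (q h) * h)) = _
  have e : g * (t ^ (q h) * h) = t ^ (q h) * (g * h) := by
    rw [← mul_assoc, ← (hc.zpow_left (q h)).eq, mul_assoc]
  rw [e, q_zpow t q hq, ← mul_assoc, ← zpow_add]
  congr 2
  ring

theorem Rr_t : Rr t q hq t = MulAction.toPermHom G G t := by
  ext1 h
  rw [Rr_apply t q hq t h rfl, hq, sub_self, zpow_zero, one_mul]
  rfl

theorem Rr_comm (g : G) (hg : t * g = g * t) :
    MulAction.toPermHom G G t * Rr t q hq g = Rr t q hq g * MulAction.toPermHom G G t := by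
  rw [← Rr_t t q hq, ← map_mul, hg, map_mul]

end Tw

/-- left translations -/
noncomputable def LH : HH →* Equiv.Perm HH := MulAction.toPermHom HH HH

theorem LH_apply (g h : HH) : LH g h = g * h := rfl

/-- left translations -/
noncomputable def LG : GG →* Equiv.Perm GG := MulAction.toPermHom GG GG

theorem LG_apply (g h : GG) : LG g h = g * h := rfl

/-- the twisted action -/
noncomputable def RH : HH →* Equiv.Perm HH := Rr HH.T qq qq_T

theorem RH_A (h : HH) : RH HH.A h = HH.T ^ (qq h - qq (HH.A * h)) * (HH.A * h) :=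
  Rr_apply HH.T qq qq_T _ _ HH.TA

theorem RH_B (h : HH) : RH HH.B h = HH.T ^ (qq h - qq (HH.B * h)) * (HH.B * h) :=
  Rr_apply HH.T qq qq_T _ _ HH.TB

theorem HH.TW : HH.T * (HH.A * HH.B * HH.A⁻¹ * HH.B⁻¹) = (HH.A * HH.B * HH.A⁻¹ * HH.B⁻¹) * HH.T := by
  have h1 : Commute HH.T HH.A := HH.TA
  have h2 : Commute HH.T HH.B := HH.TB
  exact ((h1.mul_right h2).mul_right h1.inv_right).mul_right h2.inv_right

theorem GG.tw : GG.t * (GG.a * GG.b * GG.a⁻¹ * GG.b⁻¹) = (GG.a * GG.b * GG.a⁻¹ * GG.b⁻¹) * GG.t := by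
  have h1 : Commute GG.t GG.a := GG.ta
  have h2 : Commute GG.t GG.b := GG.tb
  exact ((h1.mul_right h2).mul_right h1.inv_right).mul_right h2.inv_right

theorem RH_W : RH HH.A * RH HH.B * (RH HH.A)⁻¹ * (RH HH.B)⁻¹ =
    LH (HH.T ^ (-4 : ℤ) * (HH.A * HH.B * HH.A⁻¹ * HH.B⁻¹)) := by
  have e : RH HH.A * RH HH.B * (RH HH.A)⁻¹ * (RH HH.B)⁻¹ =
    RH (HH.A * HH.B * HH.A⁻¹ * HH.B⁻¹) := by simp only [map_mul, map_inv]
  rw [e]
  ext1 h
  have h1 : RH (HH.A * HH.B * HH.A⁻¹ * HH.B⁻¹) h = _ :=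
    Rr_apply HH.T qq qq_T (HH.A * HH.B * HH.A⁻¹ * HH.B⁻¹) h HH.TW
  have e2 : qq h - (qq h + 4) = -4 := by ring
  rw [h1, qq_W, LH_apply, e2]
  exact (mul_assoc _ _ _).symm

/-- the action of `GG` on the set `HH` -/
noncomputable def rho : GG →* Equiv.Perm HH :=
  GG.hom (RH HH.A) (RH HH.B) (LH HH.T) (LH HH.C) (Rr_comm HH.T qq qq_T _ HH.TA)
    (Rr_comm HH.T qq qq_T _ HH.TB) (by
    rw [RH_W, ← map_mul, ← map_pow, ← map_mul, ← map_mul]
    congr 1
    rw [← HH.CW]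
    have hc : Commute HH.T (HH.A * HH.B * HH.A⁻¹ * HH.B⁻¹) := HH.TW
    rw [mul_assoc, mul_assoc, ← (hc.pow_left 4).eq, ← mul_assoc (HH.T ^ (-4 : ℤ))]
    have e : HH.T ^ (-4 : ℤ) * HH.T ^ 4 = 1 := by
      rw [← zpow_natCast, ← zpow_add]
      simp
    rw [e, one_mul])

theorem rho_a : rho GG.a = RH HH.A := GG.hom_a _ _ _ _ _ _ _
theorem rho_b : rho GG.b = RH HH.B := GG.hom_b _ _ _ _ _ _ _
theorem rho_t : rho GG.t = LH HH.T := GG.hom_t _ _ _ _ _ _ _
theorem rho_c : rho GG.c = LH HH.C := GG.hom_c _ _ _ _ _ _ _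

/-- the orbit map -/
noncomputable def FF (g : GG) : HH := rho g 1

theorem FF_mul (g g' : GG) : FF (g * g') = rho g (FF g') := by
  unfold FF
  rw [map_mul, Equiv.Perm.mul_apply]

theorem FF_one : FF 1 = 1 := by
  unfold FF
  rw [map_one rho]
  rfl

theorem FF_t (g : GG) : FF (GG.t * g) = HH.T * FF g := by
  rw [FF_mul, rho_t, LH_apply]

theorem FF_c (g : GG) : FF (GG.c * g) = HH.C * FF g := by
  rw [FF_mul, rho_c, LH_apply]

theorem FF_a (g : GG) : FF (GG.a * g) =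
    HH.T ^ (qq (FF g) - qq (HH.A * FF g)) * (HH.A * FF g) := by
  rw [FF_mul, rho_a, RH_A]

theorem FF_b (g : GG) : FF (GG.b * g) =
    HH.T ^ (qq (FF g) - qq (HH.B * FF g)) * (HH.B * FF g) := by
  rw [FF_mul, rho_b, RH_B]

theorem FF_tz (n : ℤ) (g : GG) : FF (GG.t ^ n * g) = HH.T ^ n * FF g := by
  rw [FF_mul, map_zpow, rho_t, ← map_zpow, LH_apply]

theorem FF_w (g : GG) : FF (GG.a * GG.b * GG.a⁻¹ * GG.b⁻¹ * g) =
    HH.T ^ (-4 : ℤ) * ((HH.A * HH.B * HH.A⁻¹ * HH.B⁻¹) * FF g) := by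
  rw [FF_mul, map_mul, map_mul, map_mul, map_inv, map_inv, rho_a, rho_b, RH_W, LH_apply, mul_assoc]

/-- minus the shift function on `GG` -/
noncomputable def qG (g : GG) : ℤ := -qq (FF g)

theorem qG_t (g : GG) : qG (GG.t * g) = qG g := by
  unfold qG
  rw [FF_t, qq_T]

theorem qG_w (g : GG) : qG (GG.a * GG.b * GG.a⁻¹ * GG.b⁻¹ * g) = qG g - 4 := by
  unfold qG
  rw [FF_w, q_zpow HH.T qq qq_T, qq_W]
  ring

theorem qG_a (g : GG) : qG (GG.a * g) = -qq (HH.A * FF g) := by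
  unfold qG
  rw [FF_a, q_zpow HH.T qq qq_T]

theorem qG_b (g : GG) : qG (GG.b * g) = -qq (HH.B * FF g) := by
  unfold qG
  rw [FF_b, q_zpow HH.T qq qq_T]

/-- the twisted action -/
noncomputable def RG : GG →* Equiv.Perm GG := Rr GG.t qG qG_t

theorem RG_a (g : GG) : RG GG.a g = GG.t ^ (qG g - qG (GG.a * g)) * (GG.a * g) :=
  Rr_apply GG.t qG qG_t _ _ GG.ta

theorem RG_b (g : GG) : RG GG.b g = GG.t ^ (qG g - qG (GG.b * g)) * (GG.b * g) :=
  Rr_apply GG.t qG qG_t _ _ GG.tb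

theorem RG_w : RG GG.a * RG GG.b * (RG GG.a)⁻¹ * (RG GG.b)⁻¹ =
    LG (GG.t ^ 4 * (GG.a * GG.b * GG.a⁻¹ * GG.b⁻¹)) := by
  have e : RG GG.a * RG GG.b * (RG GG.a)⁻¹ * (RG GG.b)⁻¹ =
    RG (GG.a * GG.b * GG.a⁻¹ * GG.b⁻¹) := by simp only [map_mul, map_inv]
  rw [e]
  ext1 h
  have h1 : RG (GG.a * GG.b * GG.a⁻¹ * GG.b⁻¹) h = _ :=
    Rr_apply GG.t qG qG_t (GG.a * GG.b * GG.a⁻¹ * GG.b⁻¹) h GG.tw
  have e2 : qG h - (qG h - 4) = ((4 : ℕ) : ℤ) := by
    push_cast
    ring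
  rw [h1, qG_w, LG_apply, e2, zpow_natCast]
  exact (mul_assoc _ _ _).symm

/-- the action of `HH` on the set `GG` -/
noncomputable def sig : HH →* Equiv.Perm GG :=
  HH.hom (RG GG.a) (RG GG.b) (LG GG.t) (LG GG.c) (Rr_comm GG.t qG qG_t _ GG.ta)
    (Rr_comm GG.t qG qG_t _ GG.tb) (by
    have hc : Commute GG.t (GG.a * GG.b * GG.a⁻¹ * GG.b⁻¹) := GG.tw
    have e : GG.c * (GG.t ^ 4 * (GG.a * GG.b * GG.a⁻¹ * GG.b⁻¹)) = GG.t ^ 4 * GG.c := by
      rw [← GG.crel, (hc.pow_left 4).eq, ← mul_assoc]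
    rw [RG_w, ← map_mul, ← map_pow, ← map_mul, e])

theorem sig_A : sig HH.A = RG GG.a := HH.hom_A _ _ _ _ _ _ _
theorem sig_B : sig HH.B = RG GG.b := HH.hom_B _ _ _ _ _ _ _
theorem sig_T : sig HH.T = LG GG.t := HH.hom_T _ _ _ _ _ _ _
theorem sig_C : sig HH.C = LG GG.c := HH.hom_C _ _ _ _ _ _ _

theorem FF_sig (h : HH) : ∀ g : GG, FF (sig h g) = h * FF g := by
  let N : Subgroup HH :=
    { carrier := {h | ∀ g : GG, FF (sig h g) = h * FF g}
      one_mem' := by
        intro g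
        rw [map_one, Equiv.Perm.one_apply, one_mul]
      mul_mem' := by
        intro x y hx hy g
        rw [map_mul, Equiv.Perm.mul_apply, hx, hy, mul_assoc]
      inv_mem' := by
        intro x hx g
        have h1 := hx (sig x⁻¹ g)
        rw [← Equiv.Perm.mul_apply, ← map_mul, mul_inv_cancel, map_one,
          Equiv.Perm.one_apply] at h1
        rw [h1, inv_mul_cancel_left] }
  have hA : HH.A ∈ N := by
    intro g
    rw [sig_A, RG_a, FF_tz, FF_a, ← mul_assoc, ← zpow_add, qG_a]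
    have e : qG g - -qq (HH.A * FF g) + (qq (FF g) - qq (HH.A * FF g)) = 0 := by
      unfold qG
      ring
    rw [e, zpow_zero, one_mul]
  have hB : HH.B ∈ N := by
    intro g
    rw [sig_B, RG_b, FF_tz, FF_b, ← mul_assoc, ← zpow_add, qG_b]
    have e : qG g - -qq (HH.B * FF g) + (qq (FF g) - qq (HH.B * FF g)) = 0 := by
      unfold qG
      ring
    rw [e, zpow_zero, one_mul]
  have hT : HH.T ∈ N := by
    intro g
    rw [sig_T, LG_apply, FF_t]
  have hC : HH.C ∈ N := by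
    intro g
    rw [sig_C, LG_apply, FF_c]
  exact HH.gen N hA hB hT hC h

/-- the orbit map -/
noncomputable def EE (h : HH) : GG := sig h 1

theorem EE_mul (h h' : HH) : EE (h * h') = sig h (EE h') := by
  unfold EE
  rw [map_mul, Equiv.Perm.mul_apply]

theorem EE_one : EE 1 = 1 := by
  unfold EE
  rw [map_one sig]
  rfl

theorem FF_EE (h : HH) : FF (EE h) = h := by
  unfold EE
  rw [FF_sig, FF_one, mul_one]

theorem EE_Tz (n : ℤ) (h : HH) : EE (HH.T ^ n * h) = GG.t ^ n * EE h := by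
  rw [EE_mul, map_zpow, sig_T, ← map_zpow, LG_apply]

theorem EE_rho (g : GG) : ∀ h : HH, EE (rho g h) = g * EE h := by
  let N : Subgroup GG :=
    { carrier := {g | ∀ h : HH, EE (rho g h) = g * EE h}
      one_mem' := by
        intro g
        rw [map_one, Equiv.Perm.one_apply, one_mul]
      mul_mem' := by
        intro x y hx hy g
        rw [map_mul, Equiv.Perm.mul_apply, hx, hy, mul_assoc]
      inv_mem' := by
        intro x hx g
        have h1 := hx (rho x⁻¹ g)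
        rw [← Equiv.Perm.mul_apply, ← map_mul, mul_inv_cancel, map_one,
          Equiv.Perm.one_apply] at h1
        rw [h1, inv_mul_cancel_left] }
  have ha : GG.a ∈ N := by
    intro h
    rw [rho_a, RH_A, EE_Tz, EE_mul, sig_A, RG_a, ← mul_assoc, ← zpow_add, qG_a]
    unfold qG
    rw [FF_EE]
    have e : qq h - qq (HH.A * h) + (-qq h - -qq (HH.A * h)) = 0 := by ring
    rw [e, zpow_zero, one_mul]
  have hb : GG.b ∈ N := by
    intro h
    rw [rho_b, RH_B, EE_Tz, EE_mul, sig_B, RG_b, ← mul_assoc, ← zpow_add, qG_b]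
    unfold qG
    rw [FF_EE]
    have e : qq h - qq (HH.B * h) + (-qq h - -qq (HH.B * h)) = 0 := by ring
    rw [e, zpow_zero, one_mul]
  have ht : GG.t ∈ N := by
    intro h
    rw [rho_t, LH_apply, EE_mul, sig_T, LG_apply]
  have hc : GG.c ∈ N := by
    intro h
    rw [rho_c, LH_apply, EE_mul, sig_C, LG_apply]
  exact GG.gen N ha hb ht hc g

theorem EE_FF (g : GG) : EE (FF g) = g := by
  unfold FF
  rw [EE_rho, EE_one, mul_one]

/-- the bijection -/
noncomputable def FE : GG ≃ HH where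
  toFun := FF
  invFun := EE
  left_inv := EE_FF
  right_inv := FF_EE

end Pool.Agent.W392.UB
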