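import Pool.Agent.W392.UB.Conj

/-!
Word lengths and the bi-Lipschitz bijection.
-/

set_option autoImplicit false

namespace Pool.Agent.W392.UB

/-- The word length of `g` with respect to `S`: the least length of a list of elements of
`S ∪ S⁻¹` with product `g`. -/
noncomputable def wlen {G : Type*} [Group G] (S : Set G) (g : G) : ℕ :=
  sInf {n | ∃ l : List G, (∀ x ∈ l, x ∈ S ∨ x⁻¹ ∈ S) ∧ l.prod = g ∧ l.length = n}

/-- length functions -/
structure Ln {G : Type*} [Group G] (L : G → ℕ) : Prop where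
  one : L 1 = 0
  mul : ∀ g h, L (g * h) ≤ L g + L h
  inv : ∀ g, L g⁻¹ = L g

section wlen

variable {G : Type*} [Group G] {S : Set G}

theorem wlen_le {g : G} (l : List G) (h1 : ∀ x ∈ l, x ∈ S ∨ x⁻¹ ∈ S) (h2 : l.prod = g) :
    wlen S g ≤ l.length := Nat.sInf_le ⟨l, h1, h2, rfl⟩

theorem inv_list (l : List G) (h1 : ∀ x ∈ l, x ∈ S ∨ x⁻¹ ∈ S) :
    ∃ l' : List G, (∀ x ∈ l', x ∈ S ∨ x⁻¹ ∈ S) ∧ l'.prod = l.prod⁻¹ ∧ l'.length = l.length := by
  refine ⟨(l.map (fun x => x⁻¹)).reverse, ?_, ?_, ?_⟩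
  · intro x hx
    rw [List.mem_reverse, List.mem_map] at hx
    obtain ⟨y, hy, rfl⟩ := hx
    rw [_root_.inv_inv]
    exact (h1 y hy).symm
  · exact (List.prod_inv_reverse l).symm
  · simp

variable (hS : Subgroup.closure S = ⊤)

include hS in
theorem exists_list (g : G) : ∃ l : List G, (∀ x ∈ l, x ∈ S ∨ x⁻¹ ∈ S) ∧ l.prod = g := by
  let N : Subgroup G :=
    { carrier := {g | ∃ l : List G, (∀ x ∈ l, x ∈ S ∨ x⁻¹ ∈ S) ∧ l.prod = g}
      one_mem' := ⟨[], by simp, by simp⟩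
      mul_mem' := by
        rintro x y ⟨l, h1, h2⟩ ⟨l', h1', h2'⟩
        refine ⟨l ++ l', ?_, ?_⟩
        · intro z hz
          rcases List.mem_append.1 hz with h | h
          · exact h1 z h
          · exact h1' z h
        · rw [List.prod_append, h2, h2']
      inv_mem' := by
        rintro x ⟨l, h1, h2⟩
        obtain ⟨l', k1, k2, _⟩ := inv_list l h1
        exact ⟨l', k1, by rw [k2, h2]⟩ }
  have h : Subgroup.closure S ≤ N := by
    rw [Subgroup.closure_le]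
    intro x hx
    exact ⟨[x], by simp [hx], by simp⟩
  rw [hS] at h
  exact h (Subgroup.mem_top g)

include hS in
theorem wlen_spec (g : G) : ∃ l : List G, (∀ x ∈ l, x ∈ S ∨ x⁻¹ ∈ S) ∧ l.prod = g ∧
    l.length = wlen S g := by
  obtain ⟨l, h1, h2⟩ := exists_list hS g
  have h : (wlen S g) ∈ {n | ∃ l : List G, (∀ x ∈ l, x ∈ S ∨ x⁻¹ ∈ S) ∧ l.prod = g ∧
      l.length = n} := Nat.sInf_mem ⟨l.length, l, h1, h2, rfl⟩
  exact h

include hS in
theorem wlen_ln : Ln (wlen S) where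
  one := Nat.le_zero.1 (wlen_le (S := S) [] (by simp) (by simp))
  mul := fun g h => by
    obtain ⟨l, h1, h2, h3⟩ := wlen_spec hS g
    obtain ⟨l', h1', h2', h3'⟩ := wlen_spec hS h
    rw [← h3, ← h3', ← List.length_append]
    apply wlen_le
    · intro z hz
      rcases List.mem_append.1 hz with h | h
      · exact h1 z h
      · exact h1' z h
    · rw [List.prod_append, h2, h2']
  inv := by
    have key : ∀ g, wlen S g⁻¹ ≤ wlen S g := by
      intro g
      obtain ⟨l, h1, h2, h3⟩ := wlen_spec hS g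
      obtain ⟨l', k1, k2, k3⟩ := inv_list l h1
      rw [← h3, ← k3]
      exact wlen_le l' k1 (by rw [k2, h2])
    intro g
    apply le_antisymm (key g)
    have := key g⁻¹
    rwa [_root_.inv_inv] at this

end wlen

section lip

variable {G H : Type*} [Group G] [Group H] {L : H → ℕ} (hL : Ln L) (ρ : G →* Equiv.Perm H)

include hL in
theorem bdd_gen {S : Set G} (hS : Subgroup.closure S = ⊤)
    (hb : ∀ s ∈ S, ∃ C : ℕ, ∀ h : H, L (ρ s h * h⁻¹) ≤ C) (g : G) :
    ∃ C : ℕ, ∀ h : H, L (ρ g h * h⁻¹) ≤ C := by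
  let N : Subgroup G :=
    { carrier := {g | ∃ C : ℕ, ∀ h : H, L (ρ g h * h⁻¹) ≤ C}
      one_mem' := ⟨0, fun h => by simp [hL.one]⟩
      mul_mem' := by
        rintro x y ⟨C, hC⟩ ⟨D, hD⟩
        refine ⟨C + D, fun h => ?_⟩
        have e : ρ (x * y) h * h⁻¹ = (ρ x (ρ y h) * (ρ y h)⁻¹) * (ρ y h * h⁻¹) := by
          rw [map_mul, Equiv.Perm.mul_apply]
          group
        rw [e]
        exact (hL.mul _ _).trans (Nat.add_le_add (hC _) (hD _))
      inv_mem' := by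
        rintro x ⟨C, hC⟩
        refine ⟨C, fun h => ?_⟩
        have h1 := hC (ρ x⁻¹ h)
        have e : ρ x (ρ x⁻¹ h) = h := by
          rw [← Equiv.Perm.mul_apply, ← map_mul, mul_inv_cancel, map_one, Equiv.Perm.one_apply]
        rw [e, ← hL.inv, mul_inv_rev, _root_.inv_inv] at h1
        exact h1 }
  have h : Subgroup.closure S ≤ N := by
    rw [Subgroup.closure_le]
    exact hb
  rw [hS] at h
  exact h (Subgroup.mem_top g)

include hL in
theorem lip_list {S : Set G} (C : ℕ) (hC : ∀ s ∈ S, ∀ h : H, L (ρ s h * h⁻¹) ≤ C)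
    (l : List G) (hl : ∀ x ∈ l, x ∈ S) (h : H) : L (ρ l.prod h * h⁻¹) ≤ C * l.length := by
  induction l with
  | nil => simp [hL.one]
  | cons x l ih =>
    have ih' := ih (fun y hy => hl y (List.mem_cons_of_mem _ hy))
    have e : ρ (x :: l).prod h * h⁻¹ =
        (ρ x (ρ l.prod h) * (ρ l.prod h)⁻¹) * (ρ l.prod h * h⁻¹) := by
      rw [List.prod_cons, map_mul, Equiv.Perm.mul_apply]
      group
    rw [e, List.length_cons]
    have h1 := hL.mul (ρ x (ρ l.prod h) * (ρ l.prod h)⁻¹) (ρ l.prod h * h⁻¹)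
    have h2 := hC x (hl x List.mem_cons_self) (ρ l.prod h)
    have e2 : C * (l.length + 1) = C * l.length + C := by ring
    rw [e2]
    omega

theorem exists_unif {S : Set G} (hS : S.Finite) (P : G → ℕ → Prop)
    (hm : ∀ g m n, m ≤ n → P g m → P g n) (h : ∀ s ∈ S, ∃ C : ℕ, P s C) :
    ∃ C : ℕ, ∀ s ∈ S, P s C := by
  induction S, hS using Set.Finite.induction_on with
  | empty => exact ⟨0, by simp⟩
  | insert ha hs ih =>
    rename_i a s
    obtain ⟨C, hC⟩ := ih (fun x hx => h x (Set.mem_insert_of_mem _ hx))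
    obtain ⟨D, hD⟩ := h a (Set.mem_insert _ _)
    refine ⟨max C D, ?_⟩
    rintro x (rfl | hx)
    · exact hm _ _ _ (le_max_right _ _) hD
    · exact hm _ _ _ (le_max_left _ _) (hC x hx)

end lip

open Pool.Agent.W387 Pool.Agent.W387.SqSys

/-- length in `HH` -/
noncomputable def lH (h : HH) : ℕ := len (S := Dt.sys) h

theorem lH_ln : Ln lH where
  one := len_one (S := Dt.sys)
  mul := fun g h => len_mul_le (S := Dt.sys) g h
  inv := fun g => len_inv (S := Dt.sys) g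

theorem lH_list (g : HH) : ∃ l : List HH, (∀ x ∈ l, x ∈ Set.range Dt.sys.gn) ∧ l.prod = g ∧
    l.length = lH g := by
  obtain ⟨m, hm, h⟩ := exists_red (S := Dt.sys) g
  refine ⟨m.map Dt.sys.gn, ?_, h, ?_⟩
  · intro x hx
    rw [List.mem_map] at hx
    obtain ⟨y, _, rfl⟩ := hx
    exact ⟨y, rfl⟩
  · rw [List.length_map, ← h]
    exact (len_evL (S := Dt.sys) m hm).symm

theorem HH_closure : Subgroup.closure ({HH.A, HH.B, HH.T, HH.C} : Set HH) = ⊤ := by
  rw [Subgroup.eq_top_iff']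
  intro x
  apply HH.gen
  · exact Subgroup.subset_closure (by simp)
  · exact Subgroup.subset_closure (by simp)
  · exact Subgroup.subset_closure (by simp)
  · exact Subgroup.subset_closure (by simp)

theorem GG_closure : Subgroup.closure ({GG.a, GG.b, GG.t, GG.c} : Set GG) = ⊤ := by
  rw [Subgroup.eq_top_iff']
  intro x
  apply GG.gen
  · exact Subgroup.subset_closure (by simp)
  · exact Subgroup.subset_closure (by simp)
  · exact Subgroup.subset_closure (by simp)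
  · exact Subgroup.subset_closure (by simp)

theorem ln_zpow {G : Type*} [Group G] {L : G → ℕ} (hL : Ln L) (g : G) (n : ℤ) (k : ℕ)
    (hn : |n| ≤ k) : L (g ^ n) ≤ k * L g := by
  have key : ∀ m : ℕ, L (g ^ m) ≤ m * L g := by
    intro m
    induction m with
    | zero => simp [hL.one]
    | succ m ih =>
      rw [pow_succ, add_mul, one_mul]
      exact (hL.mul _ _).trans (Nat.add_le_add_right ih _)
  have h1 : L (g ^ n) ≤ n.natAbs * L g := by
    rcases Int.natAbs_eq n with h | h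
    · nth_rewrite 1 [h]
      rw [zpow_natCast]
      exact key _
    · nth_rewrite 1 [h]
      rw [zpow_neg, hL.inv, zpow_natCast]
      exact key _
  refine h1.trans (Nat.mul_le_mul_right _ ?_)
  have : (n.natAbs : ℤ) ≤ k := by rwa [Int.natCast_natAbs]
  exact_mod_cast this

theorem rho_bdd (g : GG) : ∃ C : ℕ, ∀ h : HH, lH (rho g h * h⁻¹) ≤ C := by
  apply bdd_gen lH_ln rho GG_closure
  rintro s (rfl | rfl | rfl | rfl)
  · refine ⟨8 * lH HH.T + lH HH.A, fun h => ?_⟩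
    rw [rho_a, RH_A]
    have e : HH.T ^ (qq h - qq (HH.A * h)) * (HH.A * h) * h⁻¹ =
      HH.T ^ (qq h - qq (HH.A * h)) * HH.A := by group
    rw [e]
    refine (lH_ln.mul _ _).trans (Nat.add_le_add_right (ln_zpow lH_ln _ _ 8 ?_) _)
    rw [abs_sub_comm]
    exact_mod_cast qq_A h
  · refine ⟨8 * lH HH.T + lH HH.B, fun h => ?_⟩
    rw [rho_b, RH_B]
    have e : HH.T ^ (qq h - qq (HH.B * h)) * (HH.B * h) * h⁻¹ =
      HH.T ^ (qq h - qq (HH.B * h)) * HH.B := by group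
    rw [e]
    refine (lH_ln.mul _ _).trans (Nat.add_le_add_right (ln_zpow lH_ln _ _ 8 ?_) _)
    rw [abs_sub_comm]
    exact_mod_cast qq_B h
  · refine ⟨lH HH.T, fun h => ?_⟩
    rw [rho_t, LH_apply, mul_inv_cancel_right]
  · refine ⟨lH HH.C, fun h => ?_⟩
    rw [rho_c, LH_apply, mul_inv_cancel_right]

theorem sig_bdd {S : Set GG} (hS : Subgroup.closure S = ⊤) (h : HH) :
    ∃ C : ℕ, ∀ g : GG, wlen S (sig h g * g⁻¹) ≤ C := by
  have hL := wlen_ln hS
  apply bdd_gen hL sig HH_closure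
  rintro s (rfl | rfl | rfl | rfl)
  · refine ⟨8 * wlen S GG.t + wlen S GG.a, fun g => ?_⟩
    rw [sig_A, RG_a]
    have e : GG.t ^ (qG g - qG (GG.a * g)) * (GG.a * g) * g⁻¹ =
      GG.t ^ (qG g - qG (GG.a * g)) * GG.a := by group
    rw [e]
    refine (hL.mul _ _).trans (Nat.add_le_add_right (ln_zpow hL _ _ 8 ?_) _)
    rw [qG_a]
    unfold qG
    have := qq_A (FF g)
    rw [show -qq (FF g) - -qq (HH.A * FF g) = qq (HH.A * FF g) - qq (FF g) by ring]
    exact_mod_cast this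
  · refine ⟨8 * wlen S GG.t + wlen S GG.b, fun g => ?_⟩
    rw [sig_B, RG_b]
    have e : GG.t ^ (qG g - qG (GG.b * g)) * (GG.b * g) * g⁻¹ =
      GG.t ^ (qG g - qG (GG.b * g)) * GG.b := by group
    rw [e]
    refine (hL.mul _ _).trans (Nat.add_le_add_right (ln_zpow hL _ _ 8 ?_) _)
    rw [qG_b]
    unfold qG
    have := qq_B (FF g)
    rw [show -qq (FF g) - -qq (HH.B * FF g) = qq (HH.B * FF g) - qq (FF g) by ring]
    exact_mod_cast this
  · refine ⟨wlen S GG.t, fun g => ?_⟩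
    rw [sig_T, LG_apply, mul_inv_cancel_right]
  · refine ⟨wlen S GG.c, fun g => ?_⟩
    rw [sig_C, LG_apply, mul_inv_cancel_right]

theorem FF_lip {S : Set GG} (hS : Subgroup.closure S = ⊤) (hf : S.Finite) :
    ∃ C : ℕ, ∀ g g' : GG, lH (FF g' * (FF g)⁻¹) ≤ C * wlen S (g' * g⁻¹) := by
  obtain ⟨C, hC⟩ := exists_unif (G := GG) (S := S ∪ S⁻¹) (hf.union hf.inv)
    (fun s C => ∀ h : HH, lH (rho s h * h⁻¹) ≤ C) (fun g m n hmn h x => (h x).trans hmn)
    (fun s _ => rho_bdd s)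
  refine ⟨C, fun g g' => ?_⟩
  obtain ⟨l, h1, h2, h3⟩ := wlen_spec hS (g' * g⁻¹)
  have h4 := lip_list lH_ln rho C hC l (fun x hx => (h1 x hx).imp id id) (FF g)
  rw [h2, h3, ← FF_mul, inv_mul_cancel_right] at h4
  exact h4

theorem EE_lip {S : Set GG} (hS : Subgroup.closure S = ⊤) :
    ∃ C : ℕ, ∀ h h' : HH, wlen S (EE h' * (EE h)⁻¹) ≤ C * lH (h' * h⁻¹) := by
  obtain ⟨C, hC⟩ := exists_unif (G := HH) (S := Set.range Dt.sys.gn) (Set.finite_range _)
    (fun s C => ∀ g : GG, wlen S (sig s g * g⁻¹) ≤ C) (fun g m n hmn h x => (h x).trans hmn)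
    (fun s _ => sig_bdd hS s)
  refine ⟨C, fun h h' => ?_⟩
  obtain ⟨l, h1, h2, h3⟩ := lH_list (h' * h⁻¹)
  have h4 := lip_list (wlen_ln hS) sig C hC l h1 (EE h)
  rw [h2, h3, ← EE_mul, inv_mul_cancel_right] at h4
  exact h4

/-- the bijection onto the vertices of the Cayley graph -/
noncomputable def bij : GG ≃ Dt.sys.Vx where
  toFun := fun g => ⟨FF g⁻¹⟩
  invFun := fun v => (EE v.g)⁻¹
  left_inv := fun g => by
    show (EE (FF g⁻¹))⁻¹ = g
    rw [EE_FF, _root_.inv_inv]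
  right_inv := fun v => by
    apply Vx.ext
    show FF ((EE v.g)⁻¹)⁻¹ = v.g
    rw [_root_.inv_inv, FF_EE]

theorem bij_lip {S : Set GG} (hS : Subgroup.closure S = ⊤) (hf : S.Finite) :
    ∃ C : ℕ, ∀ g h : GG, Dt.sys.Cay.dist (bij g) (bij h) ≤ C * wlen S (g⁻¹ * h) ∧
      wlen S (g⁻¹ * h) ≤ C * Dt.sys.Cay.dist (bij g) (bij h) := by
  obtain ⟨C, hC⟩ := FF_lip hS hf
  obtain ⟨D, hD⟩ := EE_lip hS
  have hL := wlen_ln hS
  refine ⟨C + D, fun g h => ?_⟩
  have e1 : Dt.sys.Cay.dist (bij g) (bij h) = lH (FF h⁻¹ * (FF g⁻¹)⁻¹) := cay_dist _ _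
  have e2 : wlen S (h⁻¹ * g⁻¹⁻¹) = wlen S (g⁻¹ * h) := by
    rw [← hL.inv]
    congr 1
    group
  have k1 := hC g⁻¹ h⁻¹
  have k2 := hD (FF g⁻¹) (FF h⁻¹)
  rw [EE_FF, EE_FF] at k2
  rw [e2] at k1 k2
  rw [e1]
  constructor
  · refine k1.trans (Nat.mul_le_mul_right _ (Nat.le_add_right _ _))
  · refine k2.trans (Nat.mul_le_mul_right _ (Nat.le_add_left _ _))

end Pool.Agent.W392.UB
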