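import Pool.Agent.W387.SqMedian

/-!
A one-vertex square complex: darts `a, b, t, c0, c1, c2, c3` and their inverses, squares
`t a = a t`, `t b = b t`, `c0 a = t c1`, `c1 b = t c2`, `c2 a⁻¹ = t c3`, `c3 b⁻¹ = t c0`.
-/

set_option autoImplicit false

namespace Pool.Agent.W392.UB

open Pool.Agent.W387

/-- darts -/
inductive Dt : Type
  | a | ai | b | bi | t | ti | c0 | c0i | c1 | c1i | c2 | c2i | c3 | c3i
  deriving DecidableEq

namespace Dt

instance : Fintype Dt where
  elems := {a, ai, b, bi, t, ti, c0, c0i, c1, c1i, c2, c2i, c3, c3i}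
  complete := by
    intro x
    cases x <;> simp

/-- inverse of a dart -/
def inv : Dt → Dt
  | a => ai
  | ai => a
  | b => bi
  | bi => b
  | t => ti
  | ti => t
  | c0 => c0i
  | c0i => c0
  | c1 => c1i
  | c1i => c1
  | c2 => c2i
  | c2i => c2
  | c3 => c3i
  | c3i => c3

/-- squares -/
def sq : Dt → Dt → Option (Dt × Dt)
  | a, t => some (t, a)
  | a, ti => some (ti, a)
  | a, c0i => some (c1i, t)
  | a, c3i => some (c2i, ti)
  | ai, t => some (t, ai)
  | ai, ti => some (ti, ai)
  | ai, c1i => some (c0i, ti)
  | ai, c2i => some (c3i, t)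
  | b, t => some (t, b)
  | b, ti => some (ti, b)
  | b, c0i => some (c3i, ti)
  | b, c1i => some (c2i, t)
  | bi, t => some (t, bi)
  | bi, ti => some (ti, bi)
  | bi, c2i => some (c1i, ti)
  | bi, c3i => some (c0i, t)
  | t, a => some (a, t)
  | t, ai => some (ai, t)
  | t, b => some (b, t)
  | t, bi => some (bi, t)
  | t, c0 => some (c1, a)
  | t, c1 => some (c2, b)
  | t, c2 => some (c3, ai)
  | t, c3 => some (c0, bi)
  | ti, a => some (a, ti)
  | ti, ai => some (ai, ti)
  | ti, b => some (b, ti)
  | ti, bi => some (bi, ti)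
  | ti, c0 => some (c3, b)
  | ti, c1 => some (c0, ai)
  | ti, c2 => some (c1, bi)
  | ti, c3 => some (c2, a)
  | c0, t => some (a, c1)
  | c0, ti => some (b, c3)
  | c0i, a => some (t, c1i)
  | c0i, b => some (ti, c3i)
  | c1, t => some (b, c2)
  | c1, ti => some (ai, c0)
  | c1i, ai => some (ti, c0i)
  | c1i, b => some (t, c2i)
  | c2, t => some (ai, c3)
  | c2, ti => some (bi, c1)
  | c2i, ai => some (t, c3i)
  | c2i, bi => some (ti, c1i)
  | c3, t => some (bi, c0)
  | c3, ti => some (a, c2)
  | c3i, a => some (ti, c2i)
  | c3i, bi => some (t, c0i)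
  | _, _ => none

/-- colours -/
def col : Dt → Bool
  | a => false
  | ai => false
  | b => false
  | bi => false
  | t => true
  | ti => true
  | c0 => false
  | c0i => true
  | c1 => false
  | c1i => true
  | c2 => false
  | c2i => true
  | c3 => false
  | c3i => true

theorem inv_inv : ∀ x : Dt, inv (inv x) = x := by decide

theorem symm_aux : ∀ x y : Dt, (match sq x y with
    | none => true
    | some r => decide (sq y x = some (r.2, r.1))) = true := by decide

theorem rot_aux : ∀ x y : Dt, (match sq x y with
    | none => true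
    | some r => decide (sq (inv x) r.1 = some (y, inv r.2))) = true := by decide

theorem col_aux : ∀ x y : Dt, (match sq x y with
    | none => true
    | some _ => decide (col x ≠ col y)) = true := by decide

theorem sq_symm {x y p q : Dt} (h : sq x y = some (p, q)) : sq y x = some (q, p) := by
  have h1 := symm_aux x y
  rw [h] at h1
  simpa using h1

theorem sq_rot {x y p q : Dt} (h : sq x y = some (p, q)) : sq (inv x) p = some (y, inv q) := by
  have h1 := rot_aux x y
  rw [h] at h1
  simpa using h1

theorem sq_col {x y : Dt} {r : Dt × Dt} (h : sq x y = some r) : col x ≠ col y := by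
  have h1 := col_aux x y
  rw [h] at h1
  simpa using h1

theorem no_tri {x y z : Dt} {r s u : Dt × Dt} (h1 : sq x y = some r) (h2 : sq y z = some s)
    (h3 : sq x z = some u) : False := by
  have k1 := sq_col h1
  have k2 := sq_col h2
  have k3 := sq_col h3
  revert k1 k2 k3
  cases col x <;> cases col y <;> cases col z <;> simp

/-- the square system -/
def sys : SqSys Dt where
  inv := inv
  inv_inv := inv_inv
  sq := sq
  symm := sq_symm
  rot := sq_rot
  irrefl := by decide
  cube := fun h1 h2 h3 => (no_tri h1 h2 h3).elim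

end Dt

end Pool.Agent.W392.UB
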