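import Mathlib

/-!
Words in three involutions `x, y, z` and an exact turning function: a function `tt` on the reduced
words with `tt (x z y v) = tt v + 3`.
-/

set_option autoImplicit false

namespace Pool.Agent.W392.UB

/-- three letters -/
inductive L3 : Type
  | x | y | z
  deriving DecidableEq

open L3

/-- reduced words -/
def Rd : List L3 → Prop
  | [] => True
  | [_] => True
  | a :: b :: l => a ≠ b ∧ Rd (b :: l)

theorem Rd.tail {a : L3} {l : List L3} (h : Rd (a :: l)) : Rd l := by
  cases l with
  | nil => trivial
  | cons b l => exact h.2

/-- action of a letter -/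
def app (s : L3) : List L3 → List L3
  | [] => [s]
  | a :: l => if a = s then l else s :: a :: l

theorem app_rd (s : L3) {l : List L3} (h : Rd l) : Rd (app s l) := by
  cases l with
  | nil => trivial
  | cons a l =>
    by_cases h1 : a = s
    · simp only [app, h1, if_true]
      exact h.tail
    · simp only [app, h1, if_false]
      exact ⟨fun e => h1 e.symm, h⟩

theorem app_app (s : L3) {l : List L3} (h : Rd l) : app s (app s l) = l := by
  cases l with
  | nil => simp [app]
  | cons a l =>
    by_cases h1 : a = s
    · subst h1
      simp only [app, if_true]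
      cases l with
      | nil => rfl
      | cons b l =>
        have : b ≠ a := fun e => h.1 e.symm
        simp [this]
    · simp [app, h1]

/-- a turn -/
def tn : L3 → L3 → ℤ
  | x, z => 1
  | z, y => 1
  | y, x => 1
  | _, _ => -1

/-- total turning -/
def t0 : List L3 → ℤ
  | [] => 0
  | [_] => 0
  | a :: b :: l => tn a b + t0 (b :: l)

/-- prefixes of the periodic word `… x z y x z y …` that starts with the given letter -/
def pf : L3 → List L3 → Bool
  | _, [] => true
  | x, x :: l => pf z l
  | z, z :: l => pf y l
  | y, y :: l => pf x l
  | _, _ => false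

/-- the correction term -/
def kap : List L3 → ℤ
  | [] => 1
  | y :: _ => 0
  | z :: _ => 2
  | x :: l => if pf z l then 2 else 4

/-- the turning function -/
def tt (l : List L3) : ℤ := t0 l + kap l

theorem tt_u {l : List L3} (h : Rd l) : tt (app x (app z (app y l))) = tt l + 3 := by
  rcases l with _ | ⟨a, _ | ⟨b, _ | ⟨c, _ | ⟨d, l⟩⟩⟩⟩
  · decide
  · cases a <;> decide
  · cases a <;> cases b <;> first | (exact absurd rfl h.1) | decide
  · cases a <;> cases b <;> cases c <;>
      first | (exact absurd rfl h.1) | (exact absurd rfl h.2.1) | decide
  · cases a <;> cases b <;> cases c <;> cases d <;>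
      first | (exact absurd rfl h.1) | (exact absurd rfl h.2.1) | (exact absurd rfl h.2.2.1) |
        (simp [tt, t0, kap, app, tn, pf]; done) | (simp [tt, t0, kap, app, tn, pf]; ring; done) |
        (rcases hp : pf z l <;> simp [tt, t0, kap, app, tn, pf, hp] <;> ring)

theorem kap_bd (l : List L3) : 0 ≤ kap l ∧ kap l ≤ 4 := by
  rcases l with _ | ⟨a, l⟩
  · decide
  · cases a
    · simp only [kap]
      split_ifs <;> norm_num
    · simp [kap]
    · simp [kap]

theorem tn_bd (a b : L3) : -1 ≤ tn a b ∧ tn a b ≤ 1 := by
  cases a <;> cases b <;> simp [tn]

theorem t0_app (s : L3) (l : List L3) : |t0 (app s l) - t0 l| ≤ 1 := by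
  cases l with
  | nil => simp [app, t0]
  | cons a l =>
    by_cases h1 : a = s
    · subst h1
      simp only [app, if_true]
      cases l with
      | nil => simp [t0]
      | cons b l =>
        simp only [t0]
        have := tn_bd a b
        rw [abs_le]
        constructor <;> linarith
    · simp only [app, h1, if_false, t0]
      have := tn_bd s a
      rw [abs_le]
      constructor <;> linarith

theorem tt_app (s : L3) (l : List L3) : |tt (app s l) - tt l| ≤ 5 := by
  have h1 := abs_le.1 (t0_app s l)
  have h2 := kap_bd l
  have h3 := kap_bd (app s l)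
  unfold tt
  rw [abs_le]
  constructor <;> linarith

end Pool.Agent.W392.UB
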